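import Mathlib

section
namespace Pool.Agent.Helper54.Poly

open Turing

/-- Structured stack programs. -/
inductive Prog (K : Type) (Γ : K → Type) : Type
  | skip : Prog K Γ
  | push (k : K) (a : Γ k) : Prog K Γ
  | pop (k : K) : Prog K Γ
  | seq (p q : Prog K Γ) : Prog K Γ
  | ite (k : K) (P : Option (Γ k) → Bool) (p q : Prog K Γ) : Prog K Γ
  | whl (k : K) (P : Option (Γ k) → Bool) (p : Prog K Γ) : Prog K Γ

variable {K : Type} [DecidableEq K] {Γ : K → Type}

/-- Stack contents. -/
abbrev St (Γ : K → Type) := ∀ k, List (Γ k)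

open Function

/-- Big-step semantics with a step count. -/
inductive Run : Prog K Γ → St Γ → ℕ → St Γ → Prop
  | skip (s : St Γ) : Run Prog.skip s 0 s
  | push (k : K) (a : Γ k) (s : St Γ) : Run (Prog.push k a) s 1 (update s k (a :: s k))
  | pop (k : K) (s : St Γ) : Run (Prog.pop k) s 1 (update s k (s k).tail)
  | seq {p q : Prog K Γ} {s s' s'' : St Γ} {t t' : ℕ} :
      Run p s t s' → Run q s' t' s'' → Run (Prog.seq p q) s (t + t') s''
  | iteT {k : K} {P : Option (Γ k) → Bool} {p q : Prog K Γ} {s s' : St Γ} {t : ℕ} :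
      P (s k).head? = true → Run p s t s' → Run (Prog.ite k P p q) s (t + 1) s'
  | iteF {k : K} {P : Option (Γ k) → Bool} {p q : Prog K Γ} {s s' : St Γ} {t : ℕ} :
      P (s k).head? = false → Run q s t s' → Run (Prog.ite k P p q) s (t + 1) s'
  | whlT {k : K} {P : Option (Γ k) → Bool} {p : Prog K Γ} {s s' s'' : St Γ} {t t' : ℕ} :
      P (s k).head? = true → Run p s t s' → Run (Prog.whl k P p) s' t' s'' →
      Run (Prog.whl k P p) s (t + t' + 1) s''
  | whlF {k : K} {P : Option (Γ k) → Bool} {p : Prog K Γ} {s : St Γ} :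
      P (s k).head? = false → Run (Prog.whl k P p) s 1 s

/-- Labels of a program. -/
def Lab : Prog K Γ → Type
  | Prog.skip => Empty
  | Prog.push _ _ => Unit
  | Prog.pop _ => Unit
  | Prog.seq p q => Lab p ⊕ Lab q
  | Prog.ite _ _ p q => Unit ⊕ (Lab p ⊕ Lab q)
  | Prog.whl _ _ p => Unit ⊕ Lab p

noncomputable instance labFintype : (p : Prog K Γ) → Fintype (Lab p)
  | Prog.skip => inferInstanceAs (Fintype Empty)
  | Prog.push _ _ => inferInstanceAs (Fintype Unit)
  | Prog.pop _ => inferInstanceAs (Fintype Unit)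
  | Prog.seq p q =>
    letI := labFintype p; letI := labFintype q; inferInstanceAs (Fintype (Lab p ⊕ Lab q))
  | Prog.ite _ _ p q =>
    letI := labFintype p; letI := labFintype q
    inferInstanceAs (Fintype (Unit ⊕ (Lab p ⊕ Lab q)))
  | Prog.whl _ _ p => letI := labFintype p; inferInstanceAs (Fintype (Unit ⊕ Lab p))

/-- entry label -/
def entry {Λ : Type} : (p : Prog K Γ) → (Lab p → Λ) → Λ → Λ
  | Prog.skip, _, ex => ex
  | Prog.push _ _, e, _ => e ()
  | Prog.pop _, e, _ => e ()
  | Prog.seq p q, e, ex => entry p (fun l => e (Sum.inl l)) (entry q (fun l => e (Sum.inr l)) ex)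
  | Prog.ite _ _ _ _, e, _ => e (Sum.inl ())
  | Prog.whl _ _ _, e, _ => e (Sum.inl ())

/-- the statement at each label -/
def code {Λ : Type} : (p : Prog K Γ) → (Lab p → Λ) → Λ → Lab p → TM2.Stmt Γ Λ Bool
  | Prog.skip, _, _ => fun l => l.elim
  | Prog.push k a, _, ex => fun _ => TM2.Stmt.push k (fun _ => a) (TM2.Stmt.goto fun _ => ex)
  | Prog.pop k, _, ex => fun _ => TM2.Stmt.pop k (fun v _ => v) (TM2.Stmt.goto fun _ => ex)
  | Prog.seq p q, e, ex => fun l => match l with
    | Sum.inl l => code p (fun l => e (Sum.inl l)) (entry q (fun l => e (Sum.inr l)) ex) l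
    | Sum.inr l => code q (fun l => e (Sum.inr l)) ex l
  | Prog.ite k P p q, e, ex => fun l => match l with
    | Sum.inl _ => TM2.Stmt.peek k (fun _ o => P o) (TM2.Stmt.branch (fun v => v)
        (TM2.Stmt.goto fun _ => entry p (fun l => e (Sum.inr (Sum.inl l))) ex)
        (TM2.Stmt.goto fun _ => entry q (fun l => e (Sum.inr (Sum.inr l))) ex))
    | Sum.inr (Sum.inl l) => code p (fun l => e (Sum.inr (Sum.inl l))) ex l
    | Sum.inr (Sum.inr l) => code q (fun l => e (Sum.inr (Sum.inr l))) ex l
  | Prog.whl k P p, e, ex => fun l => match l with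
    | Sum.inl _ => TM2.Stmt.peek k (fun _ o => P o) (TM2.Stmt.branch (fun v => v)
        (TM2.Stmt.goto fun _ => entry p (fun l => e (Sum.inr l)) (e (Sum.inl ())))
        (TM2.Stmt.goto fun _ => ex))
    | Sum.inr l => code p (fun l => e (Sum.inr l)) (e (Sum.inl ())) l

/-- `n` machine steps. -/
def Steps {Λ : Type} (M : Λ → TM2.Stmt Γ Λ Bool) (n : ℕ) (c c' : TM2.Cfg Γ Λ Bool) : Prop :=
  (flip bind (TM2.step M))^[n] (some c) = some c'

theorem Steps.refl {Λ : Type} (M : Λ → TM2.Stmt Γ Λ Bool) (c : TM2.Cfg Γ Λ Bool) :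
    Steps M 0 c c := rfl

theorem Steps.trans {Λ : Type} {M : Λ → TM2.Stmt Γ Λ Bool} {n m : ℕ}
    {c c' c'' : TM2.Cfg Γ Λ Bool} (h : Steps M n c c') (h' : Steps M m c' c'') :
    Steps M (n + m) c c'' := by
  unfold Steps at *
  rw [Nat.add_comm, Function.iterate_add_apply, h, h']

theorem Steps.one {Λ : Type} {M : Λ → TM2.Stmt Γ Λ Bool} {l : Λ} {v : Bool} {s : St Γ}
    {c' : TM2.Cfg Γ Λ Bool} (h : TM2.stepAux (M l) v s = c') :
    Steps M 1 ⟨some l, v, s⟩ c' := by
  unfold Steps
  rw [Function.iterate_one]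
  change (some (⟨some l, v, s⟩ : TM2.Cfg Γ Λ Bool)).bind (TM2.step M) = _
  rw [Option.bind_some, TM2.step, h]

theorem run_steps {Λ : Type} (M : Λ → TM2.Stmt Γ Λ Bool) {p : Prog K Γ} {s s' : St Γ} {t : ℕ}
    (h : Run p s t s') : ∀ (e : Lab p → Λ) (ex : Λ), (∀ l, M (e l) = code p e ex l) →
      ∀ v : Bool, ∃ v' : Bool, Steps M t ⟨some (entry p e ex), v, s⟩ ⟨some ex, v', s'⟩ := by
  induction h with
  | skip s => intro e ex _ v; exact ⟨v, Steps.refl _ _⟩
  | push k a s =>
    intro e ex hM v
    refine ⟨v, ?_⟩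
    apply Steps.one
    change TM2.stepAux (M (e ())) v s = _
    rw [hM]
    simp [code]
  | pop k s =>
    intro e ex hM v
    refine ⟨v, ?_⟩
    apply Steps.one
    change TM2.stepAux (M (e ())) v s = _
    rw [hM]
    simp [code]
  | @seq p q s s' s'' t t' h1 h2 ih1 ih2 =>
    intro e ex hM v
    obtain ⟨v1, hv1⟩ := ih1 (fun l => e (Sum.inl l)) (entry q (fun l => e (Sum.inr l)) ex)
      (fun l => hM (Sum.inl l)) v
    obtain ⟨v2, hv2⟩ := ih2 (fun l => e (Sum.inr l)) ex (fun l => hM (Sum.inr l)) v1
    exact ⟨v2, hv1.trans hv2⟩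
  | @iteT k P p q s s' t hP h1 ih1 =>
    intro e ex hM v
    obtain ⟨v1, hv1⟩ := ih1 (fun l => e (Sum.inr (Sum.inl l))) ex
      (fun l => hM (Sum.inr (Sum.inl l))) true
    refine ⟨v1, ?_⟩
    rw [Nat.add_comm]
    refine Steps.trans ?_ hv1
    apply Steps.one
    change TM2.stepAux (M (e (Sum.inl ()))) v s = _
    rw [hM]
    simp [code, hP]
  | @iteF k P p q s s' t hP h1 ih1 =>
    intro e ex hM v
    obtain ⟨v1, hv1⟩ := ih1 (fun l => e (Sum.inr (Sum.inr l))) ex
      (fun l => hM (Sum.inr (Sum.inr l))) false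
    refine ⟨v1, ?_⟩
    rw [Nat.add_comm]
    refine Steps.trans ?_ hv1
    apply Steps.one
    change TM2.stepAux (M (e (Sum.inl ()))) v s = _
    rw [hM]
    simp [code, hP]
  | @whlT k P p s s' s'' t t' hP h1 h2 ih1 ih2 =>
    intro e ex hM v
    obtain ⟨v1, hv1⟩ := ih1 (fun l => e (Sum.inr l)) (e (Sum.inl ()))
      (fun l => hM (Sum.inr l)) true
    obtain ⟨v2, hv2⟩ := ih2 e ex hM v1
    refine ⟨v2, ?_⟩
    have h3 : t + t' + 1 = 1 + (t + t') := by omega
    rw [h3]
    refine Steps.trans ?_ (hv1.trans hv2)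
    apply Steps.one
    change TM2.stepAux (M (e (Sum.inl ()))) v s = _
    rw [hM]
    simp [code, hP]
  | @whlF k P p s hP =>
    intro e ex hM v
    refine ⟨false, ?_⟩
    apply Steps.one
    change TM2.stepAux (M (e (Sum.inl ()))) v s = _
    rw [hM]
    simp [code, hP]

/-- the machine attached to a program -/
noncomputable def mach [Fintype K] (p : Prog K Γ) (k0 k1 : K) [Fintype (Γ k0)] : FinTM2 where
  K := K
  k₀ := k0
  k₁ := k1
  Γ := Γ
  Λ := Option (Lab p)
  main := entry p some none
  σ := Bool
  initialState := false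
  m := fun l => match l with
    | none => TM2.Stmt.load (fun _ => false) TM2.Stmt.halt
    | some l => code p some none l

theorem mach_evals [Fintype K] (p : Prog K Γ) (k0 k1 : K) [Fintype (Γ k0)] {s s' : St Γ} {t : ℕ}
    (h : Run p s t s') :
    (flip bind (mach p k0 k1).step)^[t + 1]
      (some (⟨some (mach p k0 k1).main, false, s⟩ : TM2.Cfg Γ (Option (Lab p)) Bool)) =
      some (⟨none, false, s'⟩ : TM2.Cfg Γ (Option (Lab p)) Bool) := by
  obtain ⟨v', hv'⟩ := run_steps (mach p k0 k1).m h some none (fun l => rfl) false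
  refine Steps.trans hv' ?_
  apply Steps.one
  simp [mach]

theorem dite_update (k0 : K) (l : List (Γ k0)) (k : K) (hd : Decidable (k = k0)) :
    (@dite (List (Γ k)) (k = k0) hd (fun h => by rw [h]; exact l) fun _ => []) =
      update (fun _ => []) k0 l k := by
  by_cases h : k = k0
  · subst h
    rw [update_self, dif_pos rfl]
    rfl
  · rw [update_of_ne h, dif_neg h]

/-- Programs give polynomial-time computable functions. -/
theorem polytime_of_run [Fintype K] (p : Prog K Γ) (k0 k1 : K) [Fintype (Γ k0)]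
    {α β αΓ βΓ : Type} (ea : α → List αΓ) (eb : β → List βΓ) (f : α → β)
    (e0 : Γ k0 ≃ αΓ) (e1 : Γ k1 ≃ βΓ) (T : Polynomial ℕ)
    (h : ∀ a, ∃ t, t + 1 ≤ T.eval (ea a).length ∧
      Run p (update (fun _ => []) k0 ((ea a).map e0.symm)) t
        (update (fun _ => []) k1 ((eb (f a)).map e1.symm))) :
    Nonempty (TM2ComputableInPolyTime ea eb f) := by
  refine ⟨{ tm := mach p k0 k1, inputAlphabet := e0, outputAlphabet := e1, time := T,
            outputsFun := fun a => ⟨⟨(h a).choose + 1, ?_⟩, (h a).choose_spec.1⟩ }⟩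
  have h1 := mach_evals p k0 k1 (h a).choose_spec.2
  have h2 : initList (mach p k0 k1) (List.map e0.invFun (ea a)) =
      (⟨some (mach p k0 k1).main, false, update (fun _ => []) k0 ((ea a).map e0.symm)⟩ :
        TM2.Cfg Γ (Option (Lab p)) Bool) := by
    unfold initList
    congr 1
    funext k
    exact dite_update k0 _ k _
  have h3 : haltList (mach p k0 k1) (List.map e1.invFun (eb (f a))) =
      (⟨none, false, update (fun _ => []) k1 ((eb (f a)).map e1.symm)⟩ :
        TM2.Cfg Γ (Option (Lab p)) Bool) := by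
    unfold haltList
    congr 1
    funext k
    exact dite_update k1 _ k _
  rw [h2, Option.map_some, h3]
  exact h1

end Pool.Agent.Helper54.Poly
end

section
namespace Pool.Agent.Helper54.Poly

open Turing Function

/-- Binary trees, the universal data type. -/
inductive Tr : Type
  | nil : Tr
  | cons (a b : Tr) : Tr
  deriving DecidableEq

namespace Tr

/-- Polish encoding. -/
def enc : Tr → List Bool
  | nil => [false]
  | cons a b => true :: (enc a ++ enc b)

def size (t : Tr) : ℕ := (enc t).length

@[simp] theorem size_nil : size nil = 1 := rfl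
@[simp] theorem size_cons (a b : Tr) : size (cons a b) = size a + size b + 1 := by
  simp [size, enc]

theorem size_pos (t : Tr) : 1 ≤ size t := by
  cases t <;> simp

def fst : Tr → Tr
  | nil => nil
  | cons a _ => a

def snd : Tr → Tr
  | nil => nil
  | cons _ b => b

def isC : Tr → Bool
  | nil => false
  | cons _ _ => true

def len : Tr → ℕ
  | nil => 0
  | cons _ b => len b + 1

@[simp] theorem fst_cons (a b : Tr) : fst (cons a b) = a := rfl
@[simp] theorem snd_cons (a b : Tr) : snd (cons a b) = b := rfl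
@[simp] theorem len_cons (a b : Tr) : len (cons a b) = len b + 1 := rfl
@[simp] theorem len_nil : len nil = 0 := rfl

theorem len_le (t : Tr) : len t ≤ size t := by
  induction t with
  | nil => simp
  | cons a b _ ih => simp; omega

theorem size_fst (t : Tr) : size (fst t) ≤ size t := by
  cases t <;> simp [fst]; omega

theorem size_snd (t : Tr) : size (snd t) ≤ size t := by
  cases t <;> simp [snd]; omega

end Tr

/-- internal registers -/
inductive J : Type
  | d | r | b | e | c
  deriving DecidableEq, Fintype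

/-- stack names -/
inductive Kk : Type
  | inp | out | reg (j : J)
  deriving DecidableEq, Fintype

/-- stack alphabets -/
def Gm (Γi Γo : Type) : Kk → Type
  | Kk.inp => Γi
  | Kk.out => Γo
  | Kk.reg _ => Bool

variable {Γi Γo : Type}

/-- state from its components -/
def mk (σ : J → List Bool) (li : List Γi) (lo : List Γo) : St (Gm Γi Γo)
  | Kk.inp => li
  | Kk.out => lo
  | Kk.reg j => σ j

theorem mk_reg (σ : J → List Bool) (li : List Γi) (lo : List Γo) (j : J) :
    (mk σ li lo) (Kk.reg j) = σ j := rfl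

theorem upd_reg (σ : J → List Bool) (li : List Γi) (lo : List Γo) (j : J) (l : List Bool) :
    update (mk σ li lo) (Kk.reg j) l = mk (update σ j l) li lo := by
  funext k
  rcases k with _ | _ | k
  · rw [update_of_ne (by simp)]; rfl
  · rw [update_of_ne (by simp)]; rfl
  · by_cases h : k = j
    · subst h; rw [update_self]; simp [mk]
    · rw [update_of_ne (by simpa using h)]; simp [mk, update_of_ne h]

theorem upd_inp (σ : J → List Bool) (li : List Γi) (lo : List Γo) (l : List Γi) :
    update (mk σ li lo) Kk.inp l = mk σ l lo := by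
  funext k
  rcases k with _ | _ | k
  · rw [update_self]; rfl
  · rw [update_of_ne (by simp)]; rfl
  · rw [update_of_ne (by simp)]; rfl

theorem upd_out (σ : J → List Bool) (li : List Γi) (lo : List Γo) (l : List Γo) :
    update (mk σ li lo) Kk.out l = mk σ li l := by
  funext k
  rcases k with _ | _ | k
  · rw [update_of_ne (by simp)]; rfl
  · rw [update_self]; rfl
  · rw [update_of_ne (by simp)]; rfl

abbrev Pg (Γi Γo : Type) := Prog Kk (Gm Γi Γo)

/-- bounded-time runs -/
def RL (p : Pg Γi Γo) (s : St (Gm Γi Γo)) (n : ℕ) (s' : St (Gm Γi Γo)) : Prop :=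
  ∃ t, t ≤ n ∧ Run p s t s'

theorem RL.mono {p : Pg Γi Γo} {s s' : St (Gm Γi Γo)} {n m : ℕ} (h : RL p s n s')
    (hnm : n ≤ m) : RL p s m s' := by
  obtain ⟨t, ht, h⟩ := h; exact ⟨t, ht.trans hnm, h⟩

theorem RL.skip (s : St (Gm Γi Γo)) : RL Prog.skip s 0 s := ⟨0, le_rfl, Run.skip s⟩

theorem RL.seq {p q : Pg Γi Γo} {s s' s'' : St (Gm Γi Γo)} {n m : ℕ} (h : RL p s n s')
    (h' : RL q s' m s'') : RL (Prog.seq p q) s (n + m) s'' := by
  obtain ⟨t, ht, h⟩ := h
  obtain ⟨t', ht', h'⟩ := h'
  exact ⟨t + t', by omega, Run.seq h h'⟩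

variable {σ : J → List Bool} {li : List Γi} {lo : List Γo}

theorem RL.push (j : J) (a : Bool) :
    RL (Γi := Γi) (Γo := Γo) (Prog.push (Kk.reg j) (a : Bool)) (mk σ li lo) 1
      (mk (update σ j (a :: σ j)) li lo) := by
  refine ⟨1, le_rfl, ?_⟩
  have h := Run.push (Γ := Gm Γi Γo) (Kk.reg j) a (mk σ li lo)
  rw [mk_reg] at h
  have h2 := upd_reg σ li lo j (a :: σ j)
  exact h2 ▸ h

theorem RL.pop (j : J) :
    RL (Γi := Γi) (Γo := Γo) (Prog.pop (Kk.reg j)) (mk σ li lo) 1
      (mk (update σ j (σ j).tail) li lo) := by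
  refine ⟨1, le_rfl, ?_⟩
  have h := Run.pop (Γ := Gm Γi Γo) (Kk.reg j) (mk σ li lo)
  rw [mk_reg] at h
  have h2 := upd_reg σ li lo j (σ j).tail
  exact h2 ▸ h

def isT : Option Bool → Bool
  | some true => true
  | _ => false

/-- test whether the top of register `j` is `true` -/
def iteR (j : J) (p q : Pg Γi Γo) : Pg Γi Γo := Prog.ite (Kk.reg j) isT p q

/-- loop while register `j` is nonempty -/
def whlR (j : J) (p : Pg Γi Γo) : Pg Γi Γo := Prog.whl (Kk.reg j) Option.isSome p

/-- loop while the top of register `j` is `true` -/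
def whlT (j : J) (p : Pg Γi Γo) : Pg Γi Γo := Prog.whl (Kk.reg j) isT p

theorem RL.iteT {j : J} {p q : Pg Γi Γo} {n : ℕ} {s' : St (Gm Γi Γo)} {l : List Bool}
    (hj : σ j = true :: l) (h : RL p (mk σ li lo) n s') :
    RL (iteR j p q) (mk σ li lo) (n + 1) s' := by
  obtain ⟨t, ht, h⟩ := h
  refine ⟨t + 1, by omega, Run.iteT ?_ h⟩
  rw [mk_reg, hj]; rfl

theorem RL.iteF {j : J} {p q : Pg Γi Γo} {n : ℕ} {s' : St (Gm Γi Γo)} {l : List Bool}
    (hj : σ j = false :: l) (h : RL q (mk σ li lo) n s') :
    RL (iteR j p q) (mk σ li lo) (n + 1) s' := by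
  obtain ⟨t, ht, h⟩ := h
  refine ⟨t + 1, by omega, Run.iteF ?_ h⟩
  rw [mk_reg, hj]; rfl

theorem RL.whlS {j : J} {p : Pg Γi Γo} {n m : ℕ} {s' s'' : St (Gm Γi Γo)} {a : Bool}
    {l : List Bool} (hj : σ j = a :: l) (h : RL p (mk σ li lo) n s')
    (h' : RL (whlR j p) s' m s'') : RL (whlR j p) (mk σ li lo) (n + m + 1) s'' := by
  obtain ⟨t, ht, h⟩ := h
  obtain ⟨t', ht', h'⟩ := h'
  refine ⟨t + t' + 1, by omega, Run.whlT ?_ h h'⟩
  rw [mk_reg, hj]; rfl

theorem RL.whlE {j : J} {p : Pg Γi Γo} (hj : σ j = []) :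
    RL (whlR j p) (mk σ li lo) 1 (mk σ li lo) := by
  refine ⟨1, le_rfl, Run.whlF ?_⟩
  rw [mk_reg, hj]; rfl

theorem RL.whlTT {j : J} {p : Pg Γi Γo} {n m : ℕ} {s' s'' : St (Gm Γi Γo)}
    {l : List Bool} (hj : σ j = true :: l) (h : RL p (mk σ li lo) n s')
    (h' : RL (whlT j p) s' m s'') : RL (whlT j p) (mk σ li lo) (n + m + 1) s'' := by
  obtain ⟨t, ht, h⟩ := h
  obtain ⟨t', ht', h'⟩ := h'
  refine ⟨t + t' + 1, by omega, Run.whlT ?_ h h'⟩
  rw [mk_reg, hj]; rfl

theorem RL.whlTF {j : J} {p : Pg Γi Γo} {l : List Bool} (hj : σ j = false :: l) :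
    RL (whlT j p) (mk σ li lo) 1 (mk σ li lo) := by
  refine ⟨1, le_rfl, Run.whlF ?_⟩
  rw [mk_reg, hj]; rfl

/-! ### moving symbols -/

def P1 (j : J) (a : Bool) : Pg Γi Γo := Prog.push (Kk.reg j) a
def Q1 (j : J) : Pg Γi Γo := Prog.pop (Kk.reg j)

/-- move one symbol -/
def mv1 (x y : J) : Pg Γi Γo :=
  iteR x (Prog.seq (Q1 x) (P1 y true)) (Prog.seq (Q1 x) (P1 y false))

theorem RL.mv1 {x y : J} (hxy : x ≠ y) {a : Bool} {l : List Bool} (hx : σ x = a :: l) :
    RL (mv1 (Γi := Γi) (Γo := Γo) x y) (mk σ li lo) 3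
      (mk (update (update σ x l) y (a :: σ y)) li lo) := by
  have h1 := RL.pop (Γi := Γi) (Γo := Γo) (σ := σ) (li := li) (lo := lo) x
  rw [hx, List.tail_cons] at h1
  have h2 : ∀ a, RL (Γi := Γi) (Γo := Γo) (P1 y a) (mk (update σ x l) li lo) 1
      (mk (update (update σ x l) y (a :: σ y)) li lo) := by
    intro a
    have := RL.push (Γi := Γi) (Γo := Γo) (σ := update σ x l) (li := li) (lo := lo) y a
    rw [update_of_ne hxy.symm] at this
    exact this
  cases a
  · exact (RL.iteF hx (RL.seq h1 (h2 false))).mono (by omega)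
  · exact (RL.iteT hx (RL.seq h1 (h2 true))).mono (by omega)

/-- move everything -/
def mv (x y : J) : Pg Γi Γo := whlR x (mv1 x y)

theorem RL.mv {x y : J} (hxy : x ≠ y) (l : List Bool) : ∀ {σ : J → List Bool}, σ x = l →
    RL (mv (Γi := Γi) (Γo := Γo) x y) (mk σ li lo) (4 * l.length + 1)
      (mk (update (update σ x []) y (l.reverse ++ σ y)) li lo) := by
  induction l with
  | nil =>
    intro σ hx
    have h : update (update σ x []) y (([] : List Bool).reverse ++ σ y) = σ := by
      funext j
      by_cases e1 : j = y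
      · subst e1; simp
      · rw [update_of_ne e1]
        by_cases e2 : j = x
        · subst e2; simp [hx]
        · rw [update_of_ne e2]
    rw [h]
    exact (RL.whlE hx).mono (by simp)
  | cons a l ih =>
    intro σ hx
    have h1 := RL.mv1 (Γi := Γi) (Γo := Γo) (li := li) (lo := lo) hxy hx
    have h2 := ih (σ := update (update σ x l) y (a :: σ y)) (by
      rw [update_of_ne hxy, update_self])
    have h3 : update (update (update (update σ x l) y (a :: σ y)) x []) y
        (l.reverse ++ (update (update σ x l) y (a :: σ y)) y) =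
        update (update σ x []) y ((a :: l).reverse ++ σ y) := by
      funext j
      by_cases e1 : j = y
      · subst e1; simp
      · by_cases e2 : j = x
        · subst e2; simp [e1]
        · simp [e1, e2]
    rw [h3] at h2
    exact (RL.whlS hx h1 h2).mono (by simp; omega)

/-- move one symbol to two places -/
def mw1 (x y z : J) : Pg Γi Γo :=
  iteR x (Prog.seq (Q1 x) (Prog.seq (P1 y true) (P1 z true)))
    (Prog.seq (Q1 x) (Prog.seq (P1 y false) (P1 z false)))

theorem RL.mw1 {x y z : J} (hxy : x ≠ y) (hxz : x ≠ z) (hyz : y ≠ z) {a : Bool}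
    {l : List Bool} (hx : σ x = a :: l) :
    RL (mw1 (Γi := Γi) (Γo := Γo) x y z) (mk σ li lo) 4
      (mk (update (update (update σ x l) y (a :: σ y)) z (a :: σ z)) li lo) := by
  have h1 := RL.pop (Γi := Γi) (Γo := Γo) (σ := σ) (li := li) (lo := lo) x
  rw [hx, List.tail_cons] at h1
  have h2 : ∀ a, RL (Γi := Γi) (Γo := Γo) (P1 y a) (mk (update σ x l) li lo) 1
      (mk (update (update σ x l) y (a :: σ y)) li lo) := by
    intro a
    have := RL.push (Γi := Γi) (Γo := Γo) (σ := update σ x l) (li := li) (lo := lo) y a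
    rw [update_of_ne hxy.symm] at this
    exact this
  have h3 : ∀ a, RL (Γi := Γi) (Γo := Γo) (P1 z a) (mk (update (update σ x l) y (a :: σ y)) li lo) 1
      (mk (update (update (update σ x l) y (a :: σ y)) z (a :: σ z)) li lo) := by
    intro a
    have := RL.push (Γi := Γi) (Γo := Γo) (σ := update (update σ x l) y (a :: σ y)) (li := li)
      (lo := lo) z a
    rw [update_of_ne hyz.symm, update_of_ne hxz.symm] at this
    exact this
  cases a
  · exact (RL.iteF hx (RL.seq h1 (RL.seq (h2 false) (h3 false)))).mono (by omega)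
  · exact (RL.iteT hx (RL.seq h1 (RL.seq (h2 true) (h3 true)))).mono (by omega)

def mw (x y z : J) : Pg Γi Γo := whlR x (mw1 x y z)

theorem RL.mw {x y z : J} (hxy : x ≠ y) (hxz : x ≠ z) (hyz : y ≠ z) (l : List Bool) :
    ∀ {σ : J → List Bool}, σ x = l →
    RL (mw (Γi := Γi) (Γo := Γo) x y z) (mk σ li lo) (5 * l.length + 1)
      (mk (update (update (update σ x []) y (l.reverse ++ σ y)) z (l.reverse ++ σ z)) li lo) := by
  induction l with
  | nil =>
    intro σ hx
    have h : update (update (update σ x []) y (([] : List Bool).reverse ++ σ y)) z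
        (([] : List Bool).reverse ++ σ z) = σ := by
      funext j
      by_cases e1 : j = z
      · subst e1; simp
      · by_cases e2 : j = y
        · subst e2; simp [e1]
        · by_cases e3 : j = x
          · subst e3; simp [e1, e2, hx]
          · simp [e1, e2, e3]
    rw [h]
    exact (RL.whlE hx).mono (by simp)
  | cons a l ih =>
    intro σ hx
    have h1 := RL.mw1 (Γi := Γi) (Γo := Γo) (li := li) (lo := lo) hxy hxz hyz hx
    have h2 := ih (σ := update (update (update σ x l) y (a :: σ y)) z (a :: σ z)) (by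
      rw [update_of_ne hxz, update_of_ne hxy, update_self])
    have h3 : update (update (update (update (update (update σ x l) y (a :: σ y)) z (a :: σ z))
        x []) y (l.reverse ++ (update (update (update σ x l) y (a :: σ y)) z (a :: σ z)) y)) z
        (l.reverse ++ (update (update (update σ x l) y (a :: σ y)) z (a :: σ z)) z) =
        update (update (update σ x []) y ((a :: l).reverse ++ σ y)) z
          ((a :: l).reverse ++ σ z) := by
      funext j
      by_cases e1 : j = z
      · subst e1; simp
      · by_cases e2 : j = y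
        · subst e2; simp [e1]
        · by_cases e3 : j = x
          · subst e3; simp [e1, e2]
          · simp [e1, e2, e3]
    rw [h3] at h2
    exact (RL.whlS hx h1 h2).mono (by simp; omega)

/-- empty a register -/
def clr (x : J) : Pg Γi Γo := whlR x (Q1 x)

theorem RL.clr {x : J} (l : List Bool) : ∀ {σ : J → List Bool}, σ x = l →
    RL (clr (Γi := Γi) (Γo := Γo) x) (mk σ li lo) (2 * l.length + 1)
      (mk (update σ x []) li lo) := by
  induction l with
  | nil =>
    intro σ hx
    have h : update σ x [] = σ := by rw [← hx]; exact update_eq_self x σ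
    rw [h]
    exact (RL.whlE hx).mono (by simp)
  | cons a l ih =>
    intro σ hx
    have h1 := RL.pop (Γi := Γi) (Γo := Γo) (σ := σ) (li := li) (lo := lo) x
    rw [hx, List.tail_cons] at h1
    have h2 := ih (σ := update σ x l) (by rw [update_self])
    rw [update_idem] at h2
    exact (RL.whlS hx h1 h2).mono (by simp; omega)

/-! ### traversing a tree -/

/-- body of the traversal loop -/
def trB (x y : J) : Pg Γi Γo :=
  iteR x (Prog.seq (Q1 x) (Prog.seq (P1 y true) (P1 J.c true)))
    (Prog.seq (Q1 x) (Prog.seq (P1 y false) (Q1 J.c)))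

def trv (x y : J) : Pg Γi Γo := Prog.seq (P1 J.c true) (whlR J.c (trB x y))

theorem RL.trLoop {x y : J} (hxy : x ≠ y) (hxc : x ≠ J.c) (hyc : y ≠ J.c) (rest : List Bool)
    (N : ℕ) : ∀ (ts : List Tr), (ts.flatMap Tr.enc).length = N → ∀ {σ : J → List Bool},
    σ x = ts.flatMap Tr.enc ++ rest → σ J.c = List.replicate ts.length true →
    RL (whlR (Γi := Γi) (Γo := Γo) J.c (trB x y)) (mk σ li lo) (5 * N + 1)
      (mk (update (update (update σ x rest) y ((ts.flatMap Tr.enc).reverse ++ σ y)) J.c [])
        li lo) := by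
  induction N with
  | zero =>
    intro ts hts σ hx hc
    have hnil : ts = [] := by
      rcases ts with _ | ⟨t, ts⟩
      · rfl
      · exfalso
        have := Tr.size_pos t
        simp only [List.flatMap_cons, List.length_append] at hts
        unfold Tr.size at this; omega
    subst hnil
    have h : update (update (update σ x rest) y ((([] : List Tr).flatMap Tr.enc).reverse ++ σ y))
        J.c [] = σ := by
      funext j
      by_cases e1 : j = J.c
      · subst e1; simp [hc]
      · by_cases e2 : j = y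
        · subst e2; simp [e1]
        · by_cases e3 : j = x
          · subst e3; simp [e1, e2, hx]
          · simp [e1, e2, e3]
    rw [h]
    exact (RL.whlE (by simpa using hc)).mono (by simp)
  | succ N ih =>
    intro ts hts σ hx hc
    rcases ts with _ | ⟨t, ts⟩
    · simp at hts
    · have hc' : σ J.c = true :: List.replicate ts.length true := hc
      cases t with
      | nil =>
        have hx' : σ x = false :: (ts.flatMap Tr.enc ++ rest) := hx
        have h1 := RL.pop (Γi := Γi) (Γo := Γo) (σ := σ) (li := li) (lo := lo) x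
        rw [hx', List.tail_cons] at h1
        have h2 := RL.push (Γi := Γi) (Γo := Γo) (σ := update σ x (ts.flatMap Tr.enc ++ rest))
          (li := li) (lo := lo) y false
        rw [update_of_ne hxy.symm] at h2
        have h3 := RL.pop (Γi := Γi) (Γo := Γo) (σ := update (update σ x
          (ts.flatMap Tr.enc ++ rest)) y (false :: σ y)) (li := li) (lo := lo) J.c
        rw [update_of_ne hyc.symm, update_of_ne hxc.symm, hc', List.tail_cons] at h3
        have h4 := RL.iteF (p := Prog.seq (Q1 x) (Prog.seq (P1 y true) (P1 J.c true))) hx'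
          (RL.seq h1 (RL.seq h2 h3))
        have h5 := ih ts (by simpa [Tr.enc] using hts) (σ := update (update (update σ x
          (ts.flatMap Tr.enc ++ rest)) y (false :: σ y)) J.c (List.replicate ts.length true))
          (by rw [update_of_ne hxc, update_of_ne hxy, update_self]) (by rw [update_self])
        have h6 : update (update (update (update (update (update σ x
          (ts.flatMap Tr.enc ++ rest)) y (false :: σ y)) J.c (List.replicate ts.length true))
          x rest) y ((ts.flatMap Tr.enc).reverse ++ (update (update (update σ x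
          (ts.flatMap Tr.enc ++ rest)) y (false :: σ y)) J.c
          (List.replicate ts.length true)) y)) J.c [] =
          update (update (update σ x rest) y (((Tr.nil :: ts).flatMap Tr.enc).reverse ++ σ y))
            J.c [] := by
          funext j
          by_cases e1 : j = J.c
          · subst e1; simp
          · by_cases e2 : j = y
            · subst e2; simp [e1, Tr.enc]
            · by_cases e3 : j = x
              · subst e3; simp [e1, e2]
              · simp [e1, e2, e3]
        rw [h6] at h5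
        exact (RL.whlS hc' h4 h5).mono (by omega)
      | cons a b =>
        have hx' : σ x = true :: ((a :: b :: ts).flatMap Tr.enc ++ rest) := by
          rw [hx]; simp [Tr.enc]
        have h1 := RL.pop (Γi := Γi) (Γo := Γo) (σ := σ) (li := li) (lo := lo) x
        rw [hx', List.tail_cons] at h1
        have h2 := RL.push (Γi := Γi) (Γo := Γo) (σ := update σ x
          ((a :: b :: ts).flatMap Tr.enc ++ rest)) (li := li) (lo := lo) y true
        rw [update_of_ne hxy.symm] at h2
        have h3 := RL.push (Γi := Γi) (Γo := Γo) (σ := update (update σ x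
          ((a :: b :: ts).flatMap Tr.enc ++ rest)) y (true :: σ y)) (li := li) (lo := lo) J.c true
        rw [update_of_ne hyc.symm, update_of_ne hxc.symm, hc'] at h3
        have h4 := RL.iteT (q := Prog.seq (Q1 x) (Prog.seq (P1 y false) (Q1 J.c))) hx'
          (RL.seq h1 (RL.seq h2 h3))
        have h5 := ih (a :: b :: ts) (by
            simp only [List.flatMap_cons, List.length_append, Tr.enc, List.length_cons] at hts ⊢
            omega) (σ := update (update (update σ x
          ((a :: b :: ts).flatMap Tr.enc ++ rest)) y (true :: σ y)) J.c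
            (true :: true :: List.replicate ts.length true))
          (by rw [update_of_ne hxc, update_of_ne hxy, update_self]) (by rw [update_self]; rfl)
        have h6 : update (update (update (update (update (update σ x
          ((a :: b :: ts).flatMap Tr.enc ++ rest)) y (true :: σ y)) J.c
            (true :: true :: List.replicate ts.length true))
          x rest) y (((a :: b :: ts).flatMap Tr.enc).reverse ++ (update (update (update σ x
          ((a :: b :: ts).flatMap Tr.enc ++ rest)) y (true :: σ y)) J.c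
            (true :: true :: List.replicate ts.length true)) y)) J.c [] =
          update (update (update σ x rest) y (((Tr.cons a b :: ts).flatMap Tr.enc).reverse ++ σ y))
            J.c [] := by
          funext j
          by_cases e1 : j = J.c
          · subst e1; simp
          · by_cases e2 : j = y
            · subst e2; simp [e1, Tr.enc]
            · by_cases e3 : j = x
              · subst e3; simp [e1, e2]
              · simp [e1, e2, e3]
        rw [h6] at h5
        exact (RL.whlS hc' h4 h5).mono (by omega)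

/-- move the first tree of `x`, reversed, to `y` -/
theorem RL.trv {x y : J} (hxy : x ≠ y) (hxc : x ≠ J.c) (hyc : y ≠ J.c) (t : Tr)
    (rest : List Bool) (hx : σ x = t.enc ++ rest) (hc : σ J.c = []) :
    RL (trv (Γi := Γi) (Γo := Γo) x y) (mk σ li lo) (5 * t.size + 2)
      (mk (update (update σ x rest) y (t.enc.reverse ++ σ y)) li lo) := by
  have h1 := RL.push (Γi := Γi) (Γo := Γo) (σ := σ) (li := li) (lo := lo) J.c true
  rw [hc] at h1
  have h2 := RL.trLoop (Γi := Γi) (Γo := Γo) (li := li) (lo := lo) hxy hxc hyc rest t.size [t]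
    (by simp [Tr.size]) (σ := update σ J.c [true]) (by rw [update_of_ne hxc, hx]; simp)
    (by rw [update_self]; rfl)
  have h3 : update (update (update (update σ J.c [true]) x rest) y
      (([t].flatMap Tr.enc).reverse ++ (update σ J.c [true]) y)) J.c [] =
      update (update σ x rest) y (t.enc.reverse ++ σ y) := by
    funext j
    by_cases e1 : j = J.c
    · subst e1; simp [hyc.symm, hxc.symm, hc]
    · by_cases e2 : j = y
      · subst e2; simp [e1]
      · by_cases e3 : j = x
        · subst e3; simp [e1, e2]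
        · simp [e1, e2, e3]
  rw [h3] at h2
  exact (RL.seq h1 h2).mono (by omega)

end Pool.Agent.Helper54.Poly
end

section
namespace Pool.Agent.Helper54.Poly

open Turing Function

/-- register contents at word level -/
def ws (ds rs : List Tr) : J → List Bool
  | J.d => ds.flatMap Tr.enc
  | J.r => rs.flatMap Tr.enc
  | _ => []

/-- word-level runs -/
def W {Γi Γo : Type} (p : Pg Γi Γo) (ds rs : List Tr) (n : ℕ) (ds' rs' : List Tr) : Prop :=
  ∀ (li : List Γi) (lo : List Γo), RL p (mk (ws ds rs) li lo) n (mk (ws ds' rs') li lo)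

variable {Γi Γo : Type}

theorem W.mono {p : Pg Γi Γo} {ds rs ds' rs' : List Tr} {n m : ℕ} (h : W p ds rs n ds' rs')
    (hnm : n ≤ m) : W p ds rs m ds' rs' := fun li lo => (h li lo).mono hnm

theorem W.skip (ds rs : List Tr) : W (Γi := Γi) (Γo := Γo) Prog.skip ds rs 0 ds rs :=
  fun _ _ => RL.skip _

theorem W.seq {p q : Pg Γi Γo} {ds rs ds' rs' ds'' rs'' : List Tr} {n m : ℕ}
    (h : W p ds rs n ds' rs') (h' : W q ds' rs' m ds'' rs'') :
    W (Prog.seq p q) ds rs (n + m) ds'' rs'' := fun li lo => (h li lo).seq (h' li lo)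

theorem W.pushNil (ds rs : List Tr) :
    W (Γi := Γi) (Γo := Γo) (P1 J.d false) ds rs 1 (Tr.nil :: ds) rs := by
  intro li lo
  have h := RL.push (Γi := Γi) (Γo := Γo) (σ := ws ds rs) (li := li) (lo := lo) J.d false
  have h2 : update (ws ds rs) J.d (false :: ws ds rs J.d) = ws (Tr.nil :: ds) rs := by
    funext j; cases j <;> simp [ws, Tr.enc]
  rwa [h2] at h

theorem W.mkCons (a b : Tr) (ds rs : List Tr) :
    W (Γi := Γi) (Γo := Γo) (P1 J.d true) (a :: b :: ds) rs 1 (Tr.cons a b :: ds) rs := by
  intro li lo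
  have h := RL.push (Γi := Γi) (Γo := Γo) (σ := ws (a :: b :: ds) rs) (li := li) (lo := lo)
    J.d true
  have h2 : update (ws (a :: b :: ds) rs) J.d (true :: ws (a :: b :: ds) rs J.d) =
      ws (Tr.cons a b :: ds) rs := by
    funext j; cases j <;> simp [ws, Tr.enc]
  rwa [h2] at h

theorem W.unCons (a b : Tr) (ds rs : List Tr) :
    W (Γi := Γi) (Γo := Γo) (Q1 J.d) (Tr.cons a b :: ds) rs 1 (a :: b :: ds) rs := by
  intro li lo
  have h := RL.pop (Γi := Γi) (Γo := Γo) (σ := ws (Tr.cons a b :: ds) rs) (li := li) (lo := lo)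
    J.d
  have h2 : update (ws (Tr.cons a b :: ds) rs) J.d (ws (Tr.cons a b :: ds) rs J.d).tail =
      ws (a :: b :: ds) rs := by
    funext j; cases j <;> simp [ws, Tr.enc]
  rwa [h2] at h

theorem W.iteC {p q : Pg Γi Γo} {a b : Tr} {ds rs ds' rs' : List Tr} {n : ℕ}
    (h : W p (Tr.cons a b :: ds) rs n ds' rs') :
    W (iteR J.d p q) (Tr.cons a b :: ds) rs (n + 1) ds' rs' := by
  intro li lo
  refine RL.iteT (l := a.enc ++ b.enc ++ ds.flatMap Tr.enc) ?_ (h li lo)
  simp [ws, Tr.enc]

theorem W.iteN {p q : Pg Γi Γo} {ds rs ds' rs' : List Tr} {n : ℕ}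
    (h : W q (Tr.nil :: ds) rs n ds' rs') :
    W (iteR J.d p q) (Tr.nil :: ds) rs (n + 1) ds' rs' := by
  intro li lo
  refine RL.iteF (l := ds.flatMap Tr.enc) ?_ (h li lo)
  simp [ws, Tr.enc]

theorem W.whlC {p : Pg Γi Γo} {a b : Tr} {ds rs ds' rs' ds'' rs'' : List Tr} {n m : ℕ}
    (h : W p (Tr.cons a b :: ds) rs n ds' rs') (h' : W (whlT J.d p) ds' rs' m ds'' rs'') :
    W (whlT J.d p) (Tr.cons a b :: ds) rs (n + m + 1) ds'' rs'' := by
  intro li lo
  refine RL.whlTT (l := a.enc ++ b.enc ++ ds.flatMap Tr.enc) ?_ (h li lo) (h' li lo)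
  simp [ws, Tr.enc]

theorem W.whlN {p : Pg Γi Γo} {ds rs : List Tr} :
    W (whlT J.d p) (Tr.nil :: ds) rs 1 (Tr.nil :: ds) rs := by
  intro li lo
  refine RL.whlTF (l := ds.flatMap Tr.enc) ?_
  simp [ws, Tr.enc]

def toR : Pg Γi Γo := Prog.seq (trv J.d J.b) (mv J.b J.r)
def frR : Pg Γi Γo := Prog.seq (trv J.r J.b) (mv J.b J.d)
def drp : Pg Γi Γo := Prog.seq (trv J.d J.b) (clr J.b)
def dup : Pg Γi Γo := Prog.seq (trv J.d J.b) (Prog.seq (mw J.b J.d J.e)
  (Prog.seq (mv J.e J.b) (mv J.b J.d)))

theorem W.toR (t : Tr) (ds rs : List Tr) :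
    W (Γi := Γi) (Γo := Γo) toR (t :: ds) rs (9 * t.size + 3) ds (t :: rs) := by
  intro li lo
  have h1 := RL.trv (Γi := Γi) (Γo := Γo) (σ := ws (t :: ds) rs) (li := li) (lo := lo)
    (x := J.d) (y := J.b) (by decide) (by decide) (by decide) t (ds.flatMap Tr.enc)
    (by simp [ws]) rfl
  set σ1 := update (update (ws (t :: ds) rs) J.d (ds.flatMap Tr.enc)) J.b
    (t.enc.reverse ++ (ws (t :: ds) rs) J.b) with hσ1
  have h2 := RL.mv (Γi := Γi) (Γo := Γo) (li := li) (lo := lo) (x := J.b) (y := J.r)
    (by decide) (t.enc.reverse) (σ := σ1) (by simp [hσ1, ws])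
  have h3 : update (update σ1 J.b []) J.r (t.enc.reverse.reverse ++ σ1 J.r) =
      ws ds (t :: rs) := by
    funext j; cases j <;> simp [hσ1, ws]
  rw [h3, List.length_reverse] at h2
  exact (h1.seq h2).mono (by unfold Tr.size; omega)

theorem W.frR (t : Tr) (ds rs : List Tr) :
    W (Γi := Γi) (Γo := Γo) frR ds (t :: rs) (9 * t.size + 3) (t :: ds) rs := by
  intro li lo
  have h1 := RL.trv (Γi := Γi) (Γo := Γo) (σ := ws ds (t :: rs)) (li := li) (lo := lo)
    (x := J.r) (y := J.b) (by decide) (by decide) (by decide) t (rs.flatMap Tr.enc)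
    (by simp [ws]) rfl
  set σ1 := update (update (ws ds (t :: rs)) J.r (rs.flatMap Tr.enc)) J.b
    (t.enc.reverse ++ (ws ds (t :: rs)) J.b) with hσ1
  have h2 := RL.mv (Γi := Γi) (Γo := Γo) (li := li) (lo := lo) (x := J.b) (y := J.d)
    (by decide) (t.enc.reverse) (σ := σ1) (by simp [hσ1, ws])
  have h3 : update (update σ1 J.b []) J.d (t.enc.reverse.reverse ++ σ1 J.d) =
      ws (t :: ds) rs := by
    funext j; cases j <;> simp [hσ1, ws]
  rw [h3, List.length_reverse] at h2
  exact (h1.seq h2).mono (by unfold Tr.size; omega)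

theorem W.drp (t : Tr) (ds rs : List Tr) :
    W (Γi := Γi) (Γo := Γo) drp (t :: ds) rs (7 * t.size + 3) ds rs := by
  intro li lo
  have h1 := RL.trv (Γi := Γi) (Γo := Γo) (σ := ws (t :: ds) rs) (li := li) (lo := lo)
    (x := J.d) (y := J.b) (by decide) (by decide) (by decide) t (ds.flatMap Tr.enc)
    (by simp [ws]) rfl
  set σ1 := update (update (ws (t :: ds) rs) J.d (ds.flatMap Tr.enc)) J.b
    (t.enc.reverse ++ (ws (t :: ds) rs) J.b) with hσ1
  have h2 := RL.clr (Γi := Γi) (Γo := Γo) (li := li) (lo := lo) (x := J.b)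
    (t.enc.reverse) (σ := σ1) (by simp [hσ1, ws])
  have h3 : update σ1 J.b [] = ws ds rs := by
    funext j; cases j <;> simp [hσ1, ws]
  rw [h3, List.length_reverse] at h2
  exact (h1.seq h2).mono (by unfold Tr.size; omega)

theorem W.dup (t : Tr) (ds rs : List Tr) :
    W (Γi := Γi) (Γo := Γo) dup (t :: ds) rs (18 * t.size + 5) (t :: t :: ds) rs := by
  intro li lo
  have h1 := RL.trv (Γi := Γi) (Γo := Γo) (σ := ws (t :: ds) rs) (li := li) (lo := lo)
    (x := J.d) (y := J.b) (by decide) (by decide) (by decide) t (ds.flatMap Tr.enc)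
    (by simp [ws]) rfl
  set σ1 := update (update (ws (t :: ds) rs) J.d (ds.flatMap Tr.enc)) J.b
    (t.enc.reverse ++ (ws (t :: ds) rs) J.b) with hσ1
  have h2 := RL.mw (Γi := Γi) (Γo := Γo) (li := li) (lo := lo) (x := J.b) (y := J.d) (z := J.e)
    (by decide) (by decide) (by decide) (t.enc.reverse) (σ := σ1) (by simp [hσ1, ws])
  set σ2 := update (update (update σ1 J.b []) J.d (t.enc.reverse.reverse ++ σ1 J.d)) J.e
    (t.enc.reverse.reverse ++ σ1 J.e) with hσ2
  have h3 := RL.mv (Γi := Γi) (Γo := Γo) (li := li) (lo := lo) (x := J.e) (y := J.b)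
    (by decide) (t.enc) (σ := σ2) (by simp [hσ2, hσ1, ws])
  set σ3 := update (update σ2 J.e []) J.b (t.enc.reverse ++ σ2 J.b) with hσ3
  have h4 := RL.mv (Γi := Γi) (Γo := Γo) (li := li) (lo := lo) (x := J.b) (y := J.d)
    (by decide) (t.enc.reverse) (σ := σ3) (by simp [hσ3, hσ2, ws])
  have h5 : update (update σ3 J.b []) J.d (t.enc.reverse.reverse ++ σ3 J.d) =
      ws (t :: t :: ds) rs := by
    funext j; cases j <;> simp [hσ3, hσ2, hσ1, ws]
  rw [h5, List.length_reverse] at h4
  rw [List.length_reverse] at h2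
  exact (h1.seq (h2.seq (h3.seq h4))).mono (by unfold Tr.size; omega)

theorem poly_mono (p : Polynomial ℕ) {a b : ℕ} (h : a ≤ b) : p.eval a ≤ p.eval b := by
  rw [Polynomial.eval_eq_sum_range, Polynomial.eval_eq_sum_range]
  exact Finset.sum_le_sum fun i _ => Nat.mul_le_mul_left _ (Nat.pow_le_pow_left h i)

/-- `F` is computed in polynomial time on the inputs satisfying `D`. -/
structure Imp (D : Tr → Prop) (F : Tr → Tr) : Prop where
  size : ∃ S : Polynomial ℕ, ∀ x, D x → (F x).size ≤ S.eval x.size
  run : ∀ Γi Γo : Type, ∃ (p : Pg Γi Γo) (T : Polynomial ℕ), ∀ x, D x → ∀ ds rs,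
    W p (x :: ds) rs (T.eval x.size) (F x :: ds) rs

namespace Imp

variable {D E : Tr → Prop} {F G C : Tr → Tr}

theorem congr (h : Imp D F) (hFG : ∀ x, D x → F x = G x) : Imp D G := by
  obtain ⟨⟨S, hS⟩, hr⟩ := h
  refine ⟨⟨S, fun x hx => by rw [← hFG x hx]; exact hS x hx⟩, fun Γi Γo => ?_⟩
  obtain ⟨p, T, hT⟩ := hr Γi Γo
  exact ⟨p, T, fun x hx ds rs => by rw [← hFG x hx]; exact hT x hx ds rs⟩

protected theorem id : Imp D (fun x => x) :=
  ⟨⟨Polynomial.X, fun x _ => by simp⟩, fun _ _ =>
    ⟨Prog.skip, 0, fun x _ ds rs => (W.skip _ _).mono (by simp)⟩⟩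

theorem nil : Imp D (fun _ => Tr.nil) := by
  refine ⟨⟨1, fun x _ => by simp⟩, fun _ _ =>
    ⟨Prog.seq drp (P1 J.d false), 7 * Polynomial.X + 4, fun x _ ds rs => ?_⟩⟩
  exact ((W.drp x ds rs).seq (W.pushNil ds rs)).mono (by simp)

theorem fst : Imp D Tr.fst := by
  refine ⟨⟨Polynomial.X, fun x _ => by simpa using Tr.size_fst x⟩, fun Γi Γo =>
    ⟨iteR J.d (Prog.seq (Q1 J.d) (Prog.seq toR (Prog.seq drp frR))) Prog.skip,
      25 * Polynomial.X + 11, fun x _ ds rs => ?_⟩⟩
  cases x with
  | nil => exact (W.iteN (W.skip _ _)).mono (by simp)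
  | cons a b =>
    have h := W.iteC (Γi := Γi) (Γo := Γo) (q := Prog.skip) ((W.unCons a b ds rs).seq
      ((W.toR a (b :: ds) rs).seq ((W.drp b ds (a :: rs)).seq (W.frR a ds rs))))
    exact h.mono (by simp; omega)

theorem snd : Imp D Tr.snd := by
  refine ⟨⟨Polynomial.X, fun x _ => by simpa using Tr.size_snd x⟩, fun Γi Γo =>
    ⟨iteR J.d (Prog.seq (Q1 J.d) drp) Prog.skip,
    25 * Polynomial.X + 11, fun x _ ds rs => ?_⟩⟩
  cases x with
  | nil => exact (W.iteN (W.skip _ _)).mono (by simp)
  | cons a b =>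
    have h := W.iteC (Γi := Γi) (Γo := Γo) (q := Prog.skip) ((W.unCons a b ds rs).seq
      (W.drp a (b :: ds) rs))
    exact h.mono (by simp; omega)

theorem pair (hF : Imp D F) (hG : Imp D G) : Imp D (fun x => Tr.cons (F x) (G x)) := by
  obtain ⟨⟨s, hs⟩, ih1⟩ := hF
  obtain ⟨⟨s', hs'⟩, ih2⟩ := hG
  refine ⟨⟨s + s' + 1, fun x hx => ?_⟩, fun Γi Γo => ?_⟩
  · simp only [Tr.size_cons, Polynomial.eval_add, Polynomial.eval_one]
    have := hs x hx; have := hs' x hx; omega
  obtain ⟨p, T, hT⟩ := ih1 Γi Γo
  obtain ⟨q, U, hU⟩ := ih2 Γi Γo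
  refine ⟨Prog.seq dup (Prog.seq p (Prog.seq toR (Prog.seq q (Prog.seq frR (P1 J.d true))))),
    T + U + 18 * s + 18 * Polynomial.X + 12, fun x hx ds rs => ?_⟩
  have h := (W.dup (Γi := Γi) (Γo := Γo) x ds rs).seq ((hT x hx (x :: ds) rs).seq
    ((W.toR (F x) (x :: ds) rs).seq ((hU x hx ds (F x :: rs)).seq
    ((W.frR (F x) (G x :: ds) rs).seq (W.mkCons (F x) (G x) ds rs)))))
  refine h.mono ?_
  have := hs x hx
  simp only [Polynomial.eval_add, Polynomial.eval_mul, Polynomial.eval_ofNat,
    Polynomial.eval_X]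
  omega

theorem ite (hC : Imp D C) (hF : Imp (fun x => D x ∧ (C x).isC = true) F)
    (hG : Imp (fun x => D x ∧ (C x).isC = false) G) :
    Imp D (fun x => if (C x).isC then F x else G x) := by
  obtain ⟨⟨s, hs⟩, ih0⟩ := hC
  obtain ⟨⟨s1, hs1⟩, ih1⟩ := hF
  obtain ⟨⟨s2, hs2⟩, ih2⟩ := hG
  refine ⟨⟨s1 + s2, fun x hx => ?_⟩, fun Γi Γo => ?_⟩
  · simp only [Polynomial.eval_add]
    split_ifs with h
    · have := hs1 x ⟨hx, h⟩; omega
    · have := hs2 x ⟨hx, by simpa using h⟩; omega
  obtain ⟨r, V, hV⟩ := ih0 Γi Γo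
  obtain ⟨p, T, hT⟩ := ih1 Γi Γo
  obtain ⟨q, U, hU⟩ := ih2 Γi Γo
  refine ⟨Prog.seq dup (Prog.seq r (iteR J.d (Prog.seq drp p) (Prog.seq drp q))),
    V + T + U + 7 * s + 18 * Polynomial.X + 12, fun x hx ds rs => ?_⟩
  have h1 := (W.dup (Γi := Γi) (Γo := Γo) x ds rs)
  have h2 := hV x hx (x :: ds) rs
  have := hs x hx
  cases hcx : C x with
  | nil =>
    rw [hcx] at h2 this
    have hx' : D x ∧ (C x).isC = false := ⟨hx, by rw [hcx]; rfl⟩
    have h3 := h1.seq (h2.seq (W.iteN (p := Prog.seq drp p)
      ((W.drp Tr.nil (x :: ds) rs).seq (hU x hx' ds rs))))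
    have h4 : (if (Tr.nil).isC = true then F x else G x) = G x := if_neg (by decide)
    rw [h4]
    refine h3.mono ?_
    simp only [Polynomial.eval_add, Polynomial.eval_mul, Polynomial.eval_ofNat,
      Polynomial.eval_X]
    omega
  | cons a b =>
    rw [hcx] at h2 this
    have hx' : D x ∧ (C x).isC = true := ⟨hx, by rw [hcx]; rfl⟩
    have h3 := h1.seq (h2.seq (W.iteC (q := Prog.seq drp q)
      ((W.drp (Tr.cons a b) (x :: ds) rs).seq (hT x hx' ds rs))))
    have h4 : (if (Tr.cons a b).isC = true then F x else G x) = F x := if_pos rfl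
    rw [h4]
    refine h3.mono ?_
    simp only [Polynomial.eval_add, Polynomial.eval_mul, Polynomial.eval_ofNat,
      Polynomial.eval_X]
    omega

theorem comp (hG : Imp E G) (hF : Imp D F) (hDE : ∀ x, D x → E (F x)) :
    Imp D (fun x => G (F x)) := by
  obtain ⟨⟨s, hs⟩, ih1⟩ := hG
  obtain ⟨⟨s', hs'⟩, ih2⟩ := hF
  refine ⟨⟨s.comp s', fun x hx => ?_⟩, fun Γi Γo => ?_⟩
  · rw [Polynomial.eval_comp]
    exact (hs _ (hDE x hx)).trans (poly_mono s (hs' x hx))
  obtain ⟨p, T, hT⟩ := ih1 Γi Γo
  obtain ⟨q, U, hU⟩ := ih2 Γi Γo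
  refine ⟨Prog.seq q p, U + T.comp s', fun x hx ds rs => ?_⟩
  refine ((hU x hx ds rs).seq (hT (F x) (hDE x hx) ds rs)).mono ?_
  rw [Polynomial.eval_add, Polynomial.eval_comp]
  exact Nat.add_le_add_left (poly_mono T (hs' x hx)) _

end Imp

/-- the body of the iteration -/
def itB (p : Pg Γi Γo) : Pg Γi Γo :=
  Prog.seq (Q1 J.d) (Prog.seq drp (Prog.seq toR (Prog.seq p frR)))

theorem Imp.iter {D E : Tr → Prop} {F : Tr → Tr} (s : Polynomial ℕ) (hF : Imp E F)
    (hs : ∀ x : Tr, D x → (∀ k < x.fst.len, E (F^[k] x.snd)) ∧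
      ∀ k ≤ x.fst.len, (F^[k] x.snd).size ≤ s.eval x.size) :
    Imp D (fun x => F^[x.fst.len] x.snd) := by
  obtain ⟨_, ih⟩ := hF
  refine ⟨⟨s, fun x hx => (hs x hx).2 _ le_rfl⟩, fun Γi Γo => ?_⟩
  obtain ⟨p, T, hT⟩ := ih Γi Γo
  refine ⟨iteR J.d (Prog.seq (Q1 J.d) (Prog.seq (whlT J.d (itB p)) drp)) Prog.skip,
    (Polynomial.X + 1) * (T.comp s + 30 * Polynomial.X + 20) + 20, fun x hx ds rs => ?_⟩
  cases x with
  | nil => exact (W.iteN (W.skip _ _)).mono (by simp)
  | cons n y =>
    set S := s.eval (Tr.cons n y).size with hS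
    -- the loop
    have hloop : ∀ (m : Tr) (z : Tr) , m.size ≤ n.size → (∀ k < m.len, E (F^[k] z)) →
        (∀ k ≤ m.len, (F^[k] z).size ≤ S) →
        ∃ m', m'.size ≤ 1 ∧ W (whlT J.d (itB p)) (m :: z :: ds) rs
          (m.len * (T.eval S + 25 * n.size + 11) + 1)
          (m' :: F^[m.len] z :: ds) rs := by
      intro m
      induction m with
      | nil =>
        intro z _ _ _
        exact ⟨Tr.nil, le_rfl, W.whlN.mono (by simp)⟩
      | cons a b _ ihb =>
        intro z hsz hE hk
        have h0 : z.size ≤ S := hk 0 (Nat.zero_le _)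
        have hE0 : E z := hE 0 (by simp)
        simp only [Tr.size_cons] at hsz
        obtain ⟨m', hm', hw⟩ := ihb (F z) (by omega) (fun k hk' => by
          have := hE (k + 1) (by simp; omega)
          rwa [Function.iterate_succ_apply] at this) (fun k hk' => by
          have := hk (k + 1) (by simp; omega)
          rwa [Function.iterate_succ_apply] at this)
        refine ⟨m', hm', ?_⟩
        have hbody := (W.unCons (Γi := Γi) (Γo := Γo) a b (z :: ds) rs).seq
          ((W.drp a (b :: z :: ds) rs).seq ((W.toR b (z :: ds) rs).seq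
          ((hT z hE0 ds (b :: rs)).seq (W.frR b (F z :: ds) rs))))
        have hw2 := W.whlC (p := itB p) hbody hw
        have hT' := poly_mono T h0
        rw [Tr.len_cons, Function.iterate_succ_apply]
        refine hw2.mono ?_
        have := Tr.size_pos a
        have h9 : (b.len + 1) * (T.eval S + 25 * n.size + 11) =
          b.len * (T.eval S + 25 * n.size + 11) + (T.eval S + 25 * n.size + 11) := by ring
        rw [h9]
        omega
    obtain ⟨m', hm', hw⟩ := hloop n y le_rfl (fun k hk => (hs (Tr.cons n y) hx).1 k hk)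
      (fun k hk => (hs (Tr.cons n y) hx).2 k hk)
    have h := W.iteC (q := Prog.skip) ((W.unCons n y ds rs).seq
      (hw.seq (W.drp m' (F^[n.len] y :: ds) rs)))
    refine h.mono ?_
    simp only [Polynomial.eval_add, Polynomial.eval_mul, Polynomial.eval_ofNat,
      Polynomial.eval_X, Polynomial.eval_comp, Polynomial.eval_one, Tr.size_cons]
    have hS' : S = s.eval (n.size + y.size + 1) := by rw [hS, Tr.size_cons]
    rw [← hS']
    have hlen := Tr.len_le n
    have h1 : n.len * (T.eval S + 25 * n.size + 11) ≤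
        (n.size + y.size + 1) * (T.eval S + 30 * (n.size + y.size + 1) + 20) :=
      Nat.mul_le_mul (by omega) (by omega)
    have h2 : (n.size + y.size + 1 + 1) * (T.eval S + 30 * (n.size + y.size + 1) + 20) =
      (n.size + y.size + 1) * (T.eval S + 30 * (n.size + y.size + 1) + 20) +
      (T.eval S + 30 * (n.size + y.size + 1) + 20) := by ring
    rw [h2]
    omega

end Pool.Agent.Helper54.Poly
end

section
namespace Pool.Agent.Helper54.Poly

open Turing Function

/-- Types with an encoding by trees. -/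
class TEnc (α : Type) where
  enc : α → Tr

open TEnc

instance : TEnc Tr := ⟨fun x => x⟩
instance : TEnc Unit := ⟨fun _ => Tr.nil⟩
instance : TEnc Bool := ⟨fun b => if b then Tr.cons Tr.nil Tr.nil else Tr.nil⟩
instance {α β : Type} [TEnc α] [TEnc β] : TEnc (α × β) := ⟨fun x => Tr.cons (enc x.1) (enc x.2)⟩
instance {α : Type} [TEnc α] : TEnc (Option α) := ⟨fun x => match x with
  | none => Tr.nil
  | some a => Tr.cons (enc a) Tr.nil⟩

def encList {α : Type} [TEnc α] : List α → Tr
  | [] => Tr.nil
  | a :: l => Tr.cons (enc a) (encList l)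

instance {α : Type} [TEnc α] : TEnc (List α) := ⟨encList⟩

@[simp] theorem enc_true : enc true = Tr.cons Tr.nil Tr.nil := rfl
@[simp] theorem enc_false : enc false = Tr.nil := rfl
@[simp] theorem enc_unit (u : Unit) : enc u = Tr.nil := rfl
@[simp] theorem enc_pair {α β : Type} [TEnc α] [TEnc β] (a : α) (b : β) :
    enc (a, b) = Tr.cons (enc a) (enc b) := rfl
@[simp] theorem enc_none {α : Type} [TEnc α] : enc (none : Option α) = Tr.nil := rfl
@[simp] theorem enc_some {α : Type} [TEnc α] (a : α) :
    enc (some a) = Tr.cons (enc a) Tr.nil := rfl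
@[simp] theorem enc_lnil {α : Type} [TEnc α] : enc ([] : List α) = Tr.nil := rfl
@[simp] theorem enc_lcons {α : Type} [TEnc α] (a : α) (l : List α) :
    enc (a :: l) = Tr.cons (enc a) (enc l) := rfl

/-- being an encoding -/
def IsEnc (α : Type) [TEnc α] (x : Tr) : Prop := ∃ a : α, x = enc a

/-- polynomial-time functions between encoded types -/
def PT {α β : Type} [TEnc α] [TEnc β] (f : α → β) : Prop :=
  ∃ F : Tr → Tr, Imp (IsEnc α) F ∧ ∀ a, F (enc a) = enc (f a)

/-- size of an encoded object -/
def sz {α : Type} [TEnc α] (a : α) : ℕ := (enc a).size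

section load

variable {Γi Γo : Type} [DecidableEq Γi] [TEnc Γi]

/-- push a list of symbols (first element first) on register `b` -/
def pushL (Γi Γo : Type) : List Bool → Pg Γi Γo
  | [] => Prog.skip
  | a :: l => Prog.seq (P1 J.b a) (pushL Γi Γo l)

omit [DecidableEq Γi] [TEnc Γi] in
theorem RL.pushL (l : List Bool) : ∀ {σ : J → List Bool} {li : List Γi} {lo : List Γo},
    RL (pushL Γi Γo l) (mk σ li lo) l.length (mk (update σ J.b (l.reverse ++ σ J.b)) li lo) := by
  induction l with
  | nil =>
    intro σ li lo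
    have h : update σ J.b (([] : List Bool).reverse ++ σ J.b) = σ := by simp
    rw [h]; exact RL.skip _
  | cons a l ih =>
    intro σ li lo
    have h1 := RL.push (Γi := Γi) (Γo := Γo) (σ := σ) (li := li) (lo := lo) J.b a
    have h2 := ih (σ := update σ J.b (a :: σ J.b)) (li := li) (lo := lo)
    rw [update_self, update_idem] at h2
    have h3 : l.reverse ++ a :: σ J.b = (a :: l).reverse ++ σ J.b := by simp
    rw [h3] at h2
    exact (h1.seq h2).mono (by simp; omega)

/-- process one input symbol -/
def caseP (Γi Γo : Type) [DecidableEq Γi] [TEnc Γi] : List Γi → Pg Γi Γo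
  | [] => Prog.skip
  | a :: l => Prog.ite Kk.inp (fun o : Option Γi => decide (o = some a))
      (Prog.seq (Prog.pop Kk.inp) (pushL Γi Γo (true :: (enc a).enc))) (caseP Γi Γo l)

theorem RL.caseP (l : List Γi) {σ : J → List Bool} {a : Γi} {li : List Γi} {lo : List Γo}
    (ha : a ∈ l) : RL (caseP Γi Γo l) (mk σ (a :: li) lo) (l.length + (enc a).size + 2)
      (mk (update σ J.b ((true :: (enc a).enc).reverse ++ σ J.b)) li lo) := by
  induction l with
  | nil => simp at ha
  | cons c l ih =>
    by_cases h : a = c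
    · subst h
      have h1 : RL (Γi := Γi) (Γo := Γo) (Prog.pop Kk.inp) (mk σ (a :: li) lo) 1
          (mk σ li lo) := by
        refine ⟨1, le_rfl, ?_⟩
        have h := Run.pop (Γ := Gm Γi Γo) Kk.inp (mk σ (a :: li) lo)
        have h2 := upd_inp σ (a :: li) lo li
        exact h2 ▸ h
      have h2 := RL.pushL (Γi := Γi) (Γo := Γo) (true :: (enc a).enc) (σ := σ) (li := li)
        (lo := lo)
      obtain ⟨t, ht, h3⟩ := h1.seq h2
      refine ⟨t + 1, ?_, Run.iteT ?_ h3⟩
      · simp only [List.length_cons] at ht ⊢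
        unfold Tr.size; omega
      · change decide (some a = some a) = true
        simp
    · have ha' : a ∈ l := by simpa [h] using ha
      obtain ⟨t, ht, h3⟩ := ih ha'
      refine ⟨t + 1, ?_, Run.iteF ?_ h3⟩
      · simp only [List.length_cons]; omega
      · change decide (some a = some c) = false
        simpa using h

/-- bound on the time for one symbol -/
def symB (l : List Γi) : ℕ := l.length + (l.map fun a => (enc a).size).sum + 3

def loadLoop (Γi Γo : Type) [DecidableEq Γi] [TEnc Γi] (l : List Γi) : Pg Γi Γo :=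
  Prog.whl Kk.inp Option.isSome (caseP Γi Γo l)

/-- list encoding without the final `nil` -/
def preEnc (li : List Γi) : List Bool := li.flatMap fun a => true :: (enc a).enc

theorem RL.loadLoop (l : List Γi) (hl : ∀ a, a ∈ l) (li : List Γi) :
    ∀ {σ : J → List Bool} {lo : List Γo},
    RL (loadLoop Γi Γo l) (mk σ li lo) (li.length * symB l + 1)
      (mk (update σ J.b ((preEnc li).reverse ++ σ J.b)) [] lo) := by
  induction li with
  | nil =>
    intro σ lo
    have h : update σ J.b ((preEnc ([] : List Γi)).reverse ++ σ J.b) = σ := by simp [preEnc]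
    rw [h]
    exact ⟨1, by simp, Run.whlF rfl⟩
  | cons a li ih =>
    intro σ lo
    obtain ⟨t, ht, h1⟩ := RL.caseP (Γi := Γi) (Γo := Γo) l (σ := σ) (li := li) (lo := lo) (hl a)
    obtain ⟨t', ht', h2⟩ := ih (σ := update σ J.b ((true :: (enc a).enc).reverse ++ σ J.b))
      (lo := lo)
    rw [update_self, update_idem] at h2
    have h3 : (preEnc li).reverse ++ ((true :: (enc a).enc).reverse ++ σ J.b) =
        (preEnc (a :: li)).reverse ++ σ J.b := by
      simp [preEnc]
    rw [h3] at h2
    refine ⟨t + t' + 1, ?_, Run.whlT rfl h1 h2⟩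
    have h4 : (enc a).size ≤ (l.map fun a => (enc a).size).sum :=
      List.single_le_sum (by simp) _ (List.mem_map.2 ⟨a, hl a, rfl⟩)
    have h5 : (a :: li).length * symB l = li.length * symB l + symB l := by
      rw [List.length_cons]; ring
    rw [h5]
    have h6 : symB l = l.length + (l.map fun a => (enc a).size).sum + 3 := rfl
    omega

theorem enc_list_enc (li : List Γi) : (enc li).enc = preEnc li ++ [false] := by
  induction li with
  | nil => rfl
  | cons a li ih => simp [Tr.enc, ih, preEnc]

/-- load the whole input -/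
def load (Γi Γo : Type) [DecidableEq Γi] [TEnc Γi] (l : List Γi) : Pg Γi Γo :=
  Prog.seq (P1 J.d false) (Prog.seq (loadLoop Γi Γo l) (mv J.b J.d))

theorem preEnc_length (l : List Γi) (hl : ∀ a, a ∈ l) (li : List Γi) :
    (preEnc li).length ≤ li.length * symB l := by
  induction li with
  | nil => simp [preEnc]
  | cons a li ih =>
    have h4 : (enc a).size ≤ (l.map fun a => (enc a).size).sum :=
      List.single_le_sum (by simp) _ (List.mem_map.2 ⟨a, hl a, rfl⟩)
    have h5 : (a :: li).length * symB l = li.length * symB l + symB l := by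
      rw [List.length_cons]; ring
    rw [h5]
    have h6 : symB l = l.length + (l.map fun a => (enc a).size).sum + 3 := rfl
    have h7 : (preEnc (a :: li)).length = 1 + (enc a).size + (preEnc li).length := by
      simp [preEnc, Tr.size]; omega
    omega

theorem RL.load (l : List Γi) (hl : ∀ a, a ∈ l) (li : List Γi) (lo : List Γo) :
    RL (load Γi Γo l) (mk (ws [] []) li lo) (5 * (li.length * symB l) + 3)
      (mk (ws [enc li] []) [] lo) := by
  have h1 := RL.push (Γi := Γi) (Γo := Γo) (σ := ws [] []) (li := li) (lo := lo) J.d false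
  have h2 := RL.loadLoop (Γi := Γi) (Γo := Γo) l hl li
    (σ := update (ws [] []) J.d (false :: (ws [] []) J.d)) (lo := lo)
  set σ1 := update (update (ws [] []) J.d (false :: (ws [] []) J.d)) J.b
    ((preEnc li).reverse ++ (update (ws [] []) J.d (false :: (ws [] []) J.d)) J.b) with hσ1
  have h3 := RL.mv (Γi := Γi) (Γo := Γo) (li := []) (lo := lo) (x := J.b) (y := J.d)
    (by decide) (preEnc li).reverse (σ := σ1) (by simp [hσ1, ws])
  have h4 : update (update σ1 J.b []) J.d ((preEnc li).reverse.reverse ++ σ1 J.d) =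
      ws [enc li] [] := by
    funext j; cases j <;> simp [hσ1, ws, enc_list_enc]
  rw [h4, List.length_reverse] at h3
  refine (h1.seq (h2.seq h3)).mono ?_
  have := preEnc_length l hl li
  omega

end load

theorem upd_empty_inp {Γi Γo : Type} (li : List Γi) :
    update (fun _ => [] : St (Gm Γi Γo)) Kk.inp li = mk (ws [] []) li ([] : List Γo) := by
  funext k
  rcases k with _ | _ | k
  · rw [update_self]; rfl
  · rw [update_of_ne (by simp)]; rfl
  · rw [update_of_ne (by simp)]; cases k <;> rfl

theorem upd_empty_out {Γi Γo : Type} (lo : List Γo) :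
    update (fun _ => [] : St (Gm Γi Γo)) Kk.out lo = mk (ws [] []) ([] : List Γi) lo := by
  funext k
  rcases k with _ | _ | k
  · rw [update_of_ne (by simp)]; rfl
  · rw [update_self]; rfl
  · rw [update_of_ne (by simp)]; cases k <;> rfl

section out

variable {Γi : Type}

/-- write a Boolean result -/
def outB (Γi : Type) : Pg Γi Bool :=
  iteR J.d (Prog.seq drp (Prog.push Kk.out (true : Bool)))
    (Prog.seq drp (Prog.push Kk.out (false : Bool)))

theorem RL.pushOut (a : Bool) {σ : J → List Bool} {li : List Γi} {lo : List Bool} :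
    RL (Γi := Γi) (Γo := Bool) (Prog.push Kk.out (a : Bool)) (mk σ li lo) 1
      (mk σ li (a :: lo)) := by
  refine ⟨1, le_rfl, ?_⟩
  have h := Run.push (Γ := Gm Γi Bool) Kk.out a (mk σ li lo)
  have h2 := upd_out σ li lo (a :: lo)
  exact h2 ▸ h

theorem RL.outB (b : Bool) (li : List Γi) :
    RL (outB Γi) (mk (ws [enc b] []) li []) (7 * (enc b).size + 5) (mk (ws [] []) li [b]) := by
  cases b with
  | false =>
    have h1 := (W.drp (Γi := Γi) (Γo := Bool) (enc false) [] []) li []
    have h2 := RL.pushOut (Γi := Γi) false (σ := ws [] []) (li := li) (lo := [])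
    exact (RL.iteF (l := []) (by simp [ws, Tr.enc]) (h1.seq h2)).mono (by omega)
  | true =>
    have h1 := (W.drp (Γi := Γi) (Γo := Bool) (enc true) [] []) li []
    have h2 := RL.pushOut (Γi := Γi) true (σ := ws [] []) (li := li) (lo := [])
    exact (RL.iteT (l := [false, false]) (by simp [ws, Tr.enc]) (h1.seq h2)).mono (by omega)

/-- body of the list output loop: head element true or false -/
def outLB (Γi : Type) : Pg Γi Bool :=
  Prog.seq (Q1 J.d) (iteR J.d
    (Prog.seq (Q1 J.d) (Prog.seq (Q1 J.d) (Prog.seq (Q1 J.d) (Prog.push Kk.out (true : Bool)))))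
    (Prog.seq (Q1 J.d) (Prog.push Kk.out (false : Bool))))

def outL (Γi : Type) : Pg Γi Bool := Prog.seq (whlT J.d (outLB Γi)) (Q1 J.d)

theorem RL.outLoop (l : List Bool) : ∀ (li : List Γi) (lo : List Bool),
    RL (whlT J.d (outLB Γi)) (mk (ws [enc l] []) li lo) (7 * l.length + 1)
      (mk (ws [Tr.nil] []) li (l.reverse ++ lo)) := by
  induction l with
  | nil => intro li lo; exact W.whlN li lo
  | cons b l ih =>
    intro li lo
    have h3 := ih li (b :: lo)
    have e1 : l.reverse ++ b :: lo = (b :: l).reverse ++ lo := by simp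
    rw [e1] at h3
    cases b with
    | false =>
      have a1 := (W.unCons (Γi := Γi) (Γo := Bool) Tr.nil (enc l) [] []) li lo
      have a2 := RL.pop (Γi := Γi) (Γo := Bool) (σ := ws [Tr.nil, enc l] []) (li := li) (lo := lo)
        J.d
      have e2 : update (ws [Tr.nil, enc l] []) J.d (ws [Tr.nil, enc l] [] J.d).tail =
          ws [enc l] [] := by
        funext j; cases j <;> simp [ws, Tr.enc]
      rw [e2] at a2
      have a3 := RL.pushOut (Γi := Γi) false (σ := ws [enc l] []) (li := li) (lo := lo)
      have a4 := RL.iteF (σ := ws [Tr.nil, enc l] []) (j := J.d) (l := (enc l).enc)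
        (p := (Prog.seq (Q1 J.d) (Prog.seq (Q1 J.d) (Prog.seq (Q1 J.d)
          (Prog.push Kk.out (true : Bool)))))) (by simp [ws, Tr.enc]) (a2.seq a3)
      have a5 := RL.whlTT (σ := ws [enc (false :: l)] []) (j := J.d)
        (l := (Tr.nil).enc ++ (enc l).enc) (p := outLB Γi) (by simp [ws, Tr.enc])
        (a1.seq a4) h3
      exact a5.mono (by simp; omega)
    | true =>
      have a1 := (W.unCons (Γi := Γi) (Γo := Bool) (Tr.cons Tr.nil Tr.nil) (enc l) [] []) li lo
      have a2 := (W.unCons (Γi := Γi) (Γo := Bool) Tr.nil Tr.nil [enc l] []) li lo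
      have p1 : ∀ x : Tr, RL (Γi := Γi) (Γo := Bool) (Q1 J.d) (mk (ws [Tr.nil, x] []) li lo) 1
          (mk (ws [x] []) li lo) := by
        intro x
        have a2 := RL.pop (Γi := Γi) (Γo := Bool) (σ := ws [Tr.nil, x] []) (li := li) (lo := lo)
          J.d
        have e2 : update (ws [Tr.nil, x] []) J.d (ws [Tr.nil, x] [] J.d).tail =
            ws [x] [] := by
          funext j; cases j <;> simp [ws, Tr.enc]
        rwa [e2] at a2
      have p2 : RL (Γi := Γi) (Γo := Bool) (Q1 J.d) (mk (ws [Tr.nil, Tr.nil, enc l] []) li lo) 1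
          (mk (ws [Tr.nil, enc l] []) li lo) := by
        have a2 := RL.pop (Γi := Γi) (Γo := Bool) (σ := ws [Tr.nil, Tr.nil, enc l] [])
          (li := li) (lo := lo) J.d
        have e2 : update (ws [Tr.nil, Tr.nil, enc l] []) J.d
            (ws [Tr.nil, Tr.nil, enc l] [] J.d).tail = ws [Tr.nil, enc l] [] := by
          funext j; cases j <;> simp [ws, Tr.enc]
        rwa [e2] at a2
      have a3 := RL.pushOut (Γi := Γi) true (σ := ws [enc l] []) (li := li) (lo := lo)
      have a4 := RL.iteT (σ := ws [Tr.cons Tr.nil Tr.nil, enc l] []) (j := J.d)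
        (l := (Tr.nil).enc ++ (Tr.nil).enc ++ (enc l).enc)
        (q := (Prog.seq (Q1 J.d) (Prog.push Kk.out (false : Bool))))
        (by simp [ws, Tr.enc]) (a2.seq (p2.seq ((p1 (enc l)).seq a3)))
      have a5 := RL.whlTT (σ := ws [enc (true :: l)] []) (j := J.d)
        (l := (Tr.cons Tr.nil Tr.nil).enc ++ (enc l).enc) (p := outLB Γi) (by simp [ws, Tr.enc])
        (a1.seq a4) h3
      exact a5.mono (by simp; omega)

theorem RL.outL (l : List Bool) (li : List Γi) :
    RL (outL Γi) (mk (ws [enc l] []) li []) (7 * l.length + 2)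
      (mk (ws [] []) li l.reverse) := by
  have h1 := RL.outLoop (Γi := Γi) l li []
  rw [List.append_nil] at h1
  have a2 := RL.pop (Γi := Γi) (Γo := Bool) (σ := ws [Tr.nil] []) (li := li) (lo := l.reverse)
    J.d
  have e2 : update (ws [Tr.nil] []) J.d (ws [Tr.nil] [] J.d).tail = ws [] [] := by
    funext j; cases j <;> simp [ws, Tr.enc]
  rw [e2] at a2
  exact (h1.seq a2).mono (by omega)

end out

theorem enc_list_size {α : Type} [TEnc α] [Fintype α] :
    ∃ c : ℕ, ∀ l : List α, (enc l).size ≤ c * l.length + 1 := by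
  classical
  refine ⟨(∑ a : α, (enc a).size) + 1, fun l => ?_⟩
  induction l with
  | nil => simp
  | cons a l ih =>
    have h : (enc a).size ≤ ∑ a : α, (enc a).size :=
      Finset.single_le_sum (f := fun a : α => (enc a).size) (fun _ _ => Nat.zero_le _)
        (Finset.mem_univ a)
    rw [enc_lcons, Tr.size_cons, List.length_cons, Nat.mul_add]
    omega

/-- Boolean-valued `PT` functions are computable in polynomial time. -/
theorem polytime_bool {α Γi : Type} [DecidableEq Γi] [Fintype Γi] [TEnc Γi]
    (ea : α → List Γi) (f : α → Bool) (g : List Γi → Bool) (hg : PT g)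
    (hfg : ∀ a, g (ea a) = f a) :
    Nonempty (TM2ComputableInPolyTime ea Computability.encodeBool f) := by
  obtain ⟨F, hF, hFe⟩ := hg
  obtain ⟨p, T, hT⟩ := hF.run Γi Bool
  obtain ⟨c, hc⟩ := enc_list_size (α := Γi)
  set l : List Γi := (Finset.univ : Finset Γi).toList with hl
  have hl' : ∀ a, a ∈ l := fun a => by simp [hl]
  let _ : Fintype ((Gm Γi Bool) Kk.inp) := inferInstanceAs (Fintype Γi)
  refine polytime_of_run (Γ := Gm Γi Bool) (Prog.seq (load Γi Bool l) (Prog.seq p (outB Γi)))
    Kk.inp Kk.out ea Computability.encodeBool f (Equiv.refl Γi) (Equiv.refl Bool)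
    (Polynomial.C (5 * symB l) * Polynomial.X + 3 + T.comp (Polynomial.C c * Polynomial.X + 1)
      + 7 * 3 + 5 + 1) ?_
  intro a
  have h1 := RL.load (Γi := Γi) (Γo := Bool) l hl' (ea a) []
  have h2 := hT (enc (ea a)) ⟨_, rfl⟩ [] [] [] []
  rw [hFe, hfg] at h2
  have h3 := RL.outB (Γi := Γi) (f a) []
  obtain ⟨t, ht, hr⟩ := h1.seq (h2.seq h3)
  refine ⟨t, ?_, ?_⟩
  · refine (Nat.add_le_add_right ht 1).trans ?_
    have h4 : (enc (f a)).size ≤ 3 := by cases f a <;> simp
    have h5 : T.eval (enc (ea a)).size ≤ T.eval (c * (ea a).length + 1) :=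
      poly_mono T (hc _)
    simp only [Polynomial.eval_add, Polynomial.eval_mul, Polynomial.eval_C, Polynomial.eval_X,
      Polynomial.eval_comp, Polynomial.eval_one, Polynomial.eval_ofNat]
    have h6 : 5 * ((ea a).length * symB l) = 5 * symB l * (ea a).length := by ring
    rw [h6]
    omega
  · have e1 : List.map (Equiv.refl Γi).symm (ea a) = ea a := by
      simp
    have e2 : List.map (Equiv.refl Bool).symm (Computability.encodeBool (f a)) = [f a] := by
      simp [Computability.encodeBool]
    have e3 := upd_empty_inp (Γi := Γi) (Γo := Bool) (ea a)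
    have e4 := upd_empty_out (Γi := Γi) (Γo := Bool) [f a]
    rw [← e3, ← e4] at hr
    convert hr using 2
    · exact e1
    · exact e2

/-- list-valued `PT` functions are computable in polynomial time. -/
theorem polytime_list {α Γi : Type} [DecidableEq Γi] [Fintype Γi] [TEnc Γi]
    (ea : α → List Γi) (f : α → List Bool) (g : List Γi → List Bool) (hg : PT g)
    (hfg : ∀ a, g (ea a) = (f a).reverse) :
    Nonempty (TM2ComputableInPolyTime ea (fun l : List Bool => l) f) := by
  obtain ⟨F, hF, hFe⟩ := hg
  obtain ⟨S, hS⟩ := hF.size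
  obtain ⟨p, T, hT⟩ := hF.run Γi Bool
  obtain ⟨c, hc⟩ := enc_list_size (α := Γi)
  set l : List Γi := (Finset.univ : Finset Γi).toList with hl
  have hl' : ∀ a, a ∈ l := fun a => by simp [hl]
  let _ : Fintype ((Gm Γi Bool) Kk.inp) := inferInstanceAs (Fintype Γi)
  refine polytime_of_run (Γ := Gm Γi Bool) (Prog.seq (load Γi Bool l) (Prog.seq p (outL Γi)))
    Kk.inp Kk.out ea (fun l => l) f (Equiv.refl Γi) (Equiv.refl Bool)
    (Polynomial.C (5 * symB l) * Polynomial.X + 3 + T.comp (Polynomial.C c * Polynomial.X + 1)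
      + 7 * S.comp (Polynomial.C c * Polynomial.X + 1) + 5 + 1) ?_
  intro a
  have h1 := RL.load (Γi := Γi) (Γo := Bool) l hl' (ea a) []
  have h2 := hT (enc (ea a)) ⟨_, rfl⟩ [] [] [] []
  rw [hFe, hfg] at h2
  have h3 := RL.outL (Γi := Γi) (f a).reverse []
  rw [List.reverse_reverse] at h3
  obtain ⟨t, ht, hr⟩ := h1.seq (h2.seq h3)
  refine ⟨t, ?_, ?_⟩
  · refine (Nat.add_le_add_right ht 1).trans ?_
    have h5 : T.eval (enc (ea a)).size ≤ T.eval (c * (ea a).length + 1) :=
      poly_mono T (hc _)
    have h7 : S.eval (enc (ea a)).size ≤ S.eval (c * (ea a).length + 1) :=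
      poly_mono S (hc _)
    have h8 := hS (enc (ea a)) ⟨_, rfl⟩
    rw [hFe, hfg] at h8
    have h9 : ∀ l : List Bool, l.length ≤ (enc l).size := by
      intro l
      induction l with
      | nil => simp
      | cons b l ih => simp; omega
    have h10 := h9 (f a).reverse
    simp only [Polynomial.eval_add, Polynomial.eval_mul, Polynomial.eval_C, Polynomial.eval_X,
      Polynomial.eval_comp, Polynomial.eval_one, Polynomial.eval_ofNat]
    have h6 : 5 * ((ea a).length * symB l) = 5 * symB l * (ea a).length := by ring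
    rw [h6]
    omega
  · have e1 : List.map (Equiv.refl Γi).symm (ea a) = ea a := by
      simp
    have e2 : List.map (Equiv.refl Bool).symm (f a) = f a := by
      simp
    have e3 := upd_empty_inp (Γi := Γi) (Γo := Bool) (ea a)
    have e4 := upd_empty_out (Γi := Γi) (Γo := Bool) (f a)
    rw [← e3, ← e4] at hr
    convert hr using 2
    · exact e1
    · exact e2

end Pool.Agent.Helper54.Poly
end

section
namespace Pool.Agent.Helper54.Poly

open TEnc

variable {α β γ δ σ : Type} [TEnc α] [TEnc β] [TEnc γ] [TEnc δ] [TEnc σ]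

theorem sz_pair (a : α) (b : β) : sz (a, b) = sz a + sz b + 1 := by simp [sz]
theorem sz_cons (a : α) (l : List α) : sz (a :: l) = sz a + sz l + 1 := by simp [sz]
theorem sz_nil : sz ([] : List α) = 1 := by simp [sz]
theorem sz_some (a : α) : sz (some a) = sz a + 2 := by simp [sz]
theorem sz_none : sz (none : Option α) = 1 := by simp [sz]
theorem sz_true : sz true = 3 := by simp [sz]
theorem sz_false : sz false = 1 := by simp [sz]
theorem sz_bool (b : Bool) : sz b ≤ 3 := by cases b <;> simp [sz]
theorem sz_unit (u : Unit) : sz u = 1 := by simp [sz]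
theorem sz_pos (a : α) : 1 ≤ sz a := Tr.size_pos _

theorem sz_mem {a : α} {l : List α} (h : a ∈ l) : sz a ≤ sz l := by
  induction l with
  | nil => simp at h
  | cons b l ih =>
    rw [sz_cons]
    rcases List.mem_cons.1 h with rfl | h
    · omega
    · have := ih h; omega

theorem length_le_sz (l : List α) : l.length ≤ sz l := by
  induction l with
  | nil => simp
  | cons b l ih => rw [sz_cons, List.length_cons]; omega

theorem sz_drop (l : List α) (k : ℕ) : sz (l.drop k) ≤ sz l := by
  induction l generalizing k with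
  | nil => simp
  | cons b l ih =>
    cases k with
    | zero => simp
    | succ k => rw [List.drop_succ_cons, sz_cons]; have := ih k; omega

theorem enc_len (l : List α) : (enc l).len = l.length := by
  induction l with
  | nil => simp
  | cons a l ih => simp [ih]

namespace PT

theorem congr {f g : α → β} (h : PT f) (hfg : ∀ a, f a = g a) : PT g := by
  obtain ⟨F, hF, hFe⟩ := h
  exact ⟨F, hF, fun a => by rw [hFe, hfg]⟩

theorem bound {f : α → β} (h : PT f) : ∃ S : Polynomial ℕ, ∀ a, sz (f a) ≤ S.eval (sz a) := by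
  obtain ⟨F, hF, hFe⟩ := h
  obtain ⟨S, hS⟩ := hF.size
  refine ⟨S, fun a => ?_⟩
  have := hS (enc a) ⟨a, rfl⟩
  rwa [hFe] at this

protected theorem id : PT (fun a : α => a) := ⟨fun x => x, Imp.id, fun _ => rfl⟩

theorem comp {g : β → γ} {f : α → β} (hg : PT g) (hf : PT f) : PT (fun a => g (f a)) := by
  obtain ⟨G, hG, hGe⟩ := hg
  obtain ⟨F, hF, hFe⟩ := hf
  refine ⟨fun x => G (F x), Imp.comp hG hF ?_, fun a => by simp only [hFe, hGe]⟩
  rintro x ⟨a, rfl⟩
  exact ⟨f a, hFe a⟩

theorem pair {f : α → β} {g : α → γ} (hf : PT f) (hg : PT g) : PT (fun a => (f a, g a)) := by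
  obtain ⟨G, hG, hGe⟩ := hg
  obtain ⟨F, hF, hFe⟩ := hf
  exact ⟨_, Imp.pair hF hG, fun a => by simp only [hFe, hGe]; rfl⟩

theorem fst {f : α → β × γ} (hf : PT f) : PT (fun a => (f a).1) := by
  have h : PT (fun x : β × γ => x.1) := ⟨Tr.fst, Imp.fst, fun a => rfl⟩
  exact h.comp hf

theorem snd {f : α → β × γ} (hf : PT f) : PT (fun a => (f a).2) := by
  have h : PT (fun x : β × γ => x.2) := ⟨Tr.snd, Imp.snd, fun a => rfl⟩
  exact h.comp hf

theorem _root_.Pool.Agent.Helper54.Poly.Imp.const {D : Tr → Prop} (t : Tr) :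
    Imp D (fun _ => t) := by
  induction t with
  | nil => exact Imp.nil
  | cons a b iha ihb => exact Imp.pair iha ihb

theorem const (b : β) : PT (fun _ : α => b) := ⟨_, Imp.const (enc b), fun _ => rfl⟩

theorem imp_mono {D E : Tr → Prop} {F : Tr → Tr} (h : Imp E F) (hDE : ∀ x, D x → E x) :
    Imp D F := by
  obtain ⟨⟨S, hS⟩, hr⟩ := h
  refine ⟨⟨S, fun x hx => hS x (hDE x hx)⟩, fun Γi Γo => ?_⟩
  obtain ⟨p, T, hT⟩ := hr Γi Γo
  exact ⟨p, T, fun x hx => hT x (hDE x hx)⟩

theorem ite {c : α → Bool} {f g : α → β} (hc : PT c) (hf : PT f) (hg : PT g) :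
    PT (fun a => if c a then f a else g a) := by
  obtain ⟨C, hC, hCe⟩ := hc
  obtain ⟨G, hG, hGe⟩ := hg
  obtain ⟨F, hF, hFe⟩ := hf
  refine ⟨_, Imp.ite hC (imp_mono hF fun x hx => hx.1) (imp_mono hG fun x hx => hx.1),
    fun a => ?_⟩
  simp only [hCe]
  cases hca : c a
  · simp [Tr.isC, hGe]
  · simp [Tr.isC, hFe]

/-- case distinction on a list -/
theorem listCase {l : α → List β} {f : α → γ} {g : α × β × List β → γ}
    (hl : PT l) (hf : PT f) (hg : PT g) :
    PT (fun a => match l a with | [] => f a | b :: t => g (a, b, t)) := by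
  obtain ⟨L, hL, hLe⟩ := hl
  obtain ⟨G, hG, hGe⟩ := hg
  obtain ⟨F, hF, hFe⟩ := hf
  have h1 : Imp (fun x => IsEnc α x ∧ (L x).isC = true) (fun x => G (Tr.cons x (L x))) := by
    refine Imp.comp (F := fun x => Tr.cons x (L x)) hG
      (Imp.pair Imp.id (imp_mono hL fun x hx => hx.1)) ?_
    rintro x ⟨⟨a, rfl⟩, hx⟩
    rw [hLe] at hx ⊢
    rcases hla : l a with _ | ⟨b, t⟩
    · rw [hla] at hx; exact absurd hx (by simp [Tr.isC])
    · exact ⟨(a, b, t), rfl⟩
  refine ⟨_, Imp.ite hL h1 (imp_mono hF fun x hx => hx.1), fun a => ?_⟩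
  simp only [hLe]
  rcases hla : l a with _ | ⟨b, t⟩
  · simp [Tr.isC, hFe]
  · have h2 := hGe (a, b, t)
    simp only [enc_pair] at h2
    simp [Tr.isC, h2]

/-- case distinction on an option -/
theorem optCase {l : α → Option β} {f : α → γ} {g : α × β → γ}
    (hl : PT l) (hf : PT f) (hg : PT g) :
    PT (fun a => match l a with | none => f a | some b => g (a, b)) := by
  obtain ⟨L, hL, hLe⟩ := hl
  obtain ⟨G, hG, hGe⟩ := hg
  obtain ⟨F, hF, hFe⟩ := hf
  have h1 : Imp (fun x => IsEnc α x ∧ (L x).isC = true)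
      (fun x => G (Tr.cons x (L x).fst)) := by
    refine Imp.comp (F := fun x => Tr.cons x (L x).fst) hG
      (Imp.pair Imp.id (Imp.comp (E := fun _ => True) Imp.fst (imp_mono hL fun x hx => hx.1)
        fun _ _ => trivial)) ?_
    rintro x ⟨⟨a, rfl⟩, hx⟩
    rw [hLe] at hx ⊢
    rcases hla : l a with _ | b
    · rw [hla] at hx; exact absurd hx (by simp [Tr.isC])
    · exact ⟨(a, b), rfl⟩
  refine ⟨_, Imp.ite hL h1 (imp_mono hF fun x hx => hx.1), fun a => ?_⟩
  simp only [hLe]
  rcases hla : l a with _ | b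
  · simp [Tr.isC, hFe]
  · have h2 := hGe (a, b)
    simp only [enc_pair] at h2
    simp [Tr.isC, h2]

theorem lcons {f : α → β} {g : α → List β} (hf : PT f) (hg : PT g) :
    PT (fun a => f a :: g a) := by
  obtain ⟨G, hG, hGe⟩ := hg
  obtain ⟨F, hF, hFe⟩ := hf
  exact ⟨_, Imp.pair hF hG, fun a => by simp only [hFe, hGe]; rfl⟩

theorem osome {f : α → β} (hf : PT f) : PT (fun a => some (f a)) := by
  obtain ⟨F, hF, hFe⟩ := hf
  exact ⟨_, Imp.pair hF Imp.nil, fun a => by simp only [hFe]; rfl⟩

/-- Iteration with a context. -/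
theorem iter {f : β × α → α} (hf : PT f) {n : β → List γ} {x : β → α} (hn : PT n) (hx : PT x)
    (s : Polynomial ℕ) (hs : ∀ b, ∀ k ≤ (n b).length,
      sz ((fun a => f (b, a))^[k] (x b)) ≤ s.eval (sz b)) :
    PT (fun b => (fun a => f (b, a))^[(n b).length] (x b)) := by
  obtain ⟨F, hF, hFe⟩ := hf
  obtain ⟨N, hN, hNe⟩ := hn
  obtain ⟨X, hX, hXe⟩ := hx
  set F' : Tr → Tr := fun t => Tr.cons t.fst (F t) with hF'
  have hF'i : Imp (IsEnc (β × α)) F' := Imp.pair Imp.fst hF
  have hstep : ∀ b a k, F'^[k] (enc (b, a)) = enc (b, (fun a => f (b, a))^[k] a) := by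
    intro b a k
    induction k generalizing a with
    | zero => rfl
    | succ k ih =>
      rw [Function.iterate_succ_apply, Function.iterate_succ_apply]
      have h1 : F' (enc (b, a)) = enc (b, f (b, a)) := by
        simp only [hF', hFe]; rfl
      rw [h1, ih]
  set D : Tr → Prop := fun t => ∃ b, t = Tr.cons (enc (n b)) (enc (b, x b)) with hD
  have hit := Imp.iter (D := D) (E := IsEnc (β × α)) (F := F') (Polynomial.X + s + 1) hF'i (by
    rintro t ⟨b, rfl⟩
    constructor
    · intro k _
      rw [Tr.snd_cons, hstep]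
      exact ⟨_, rfl⟩
    · intro k hk
      rw [Tr.fst_cons, enc_len] at hk
      rw [Tr.snd_cons, hstep]
      have h1 := hs b k hk
      change sz (b, (fun a => f (b, a))^[k] (x b)) ≤ _
      rw [sz_pair]
      have h2 : sz b ≤ (Tr.cons (enc (n b)) (enc (b, x b))).size := by
        simp only [enc_pair, Tr.size_cons, sz]; omega
      have h3 := poly_mono s h2
      simp only [Polynomial.eval_add, Polynomial.eval_X, Polynomial.eval_one]
      omega)
  have h1 : Imp (IsEnc β) (fun t => Tr.cons (N t) (Tr.cons t (X t))) :=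
    Imp.pair hN (Imp.pair Imp.id hX)
  have h2 := Imp.comp (E := D) (D := IsEnc β) hit h1 (by
    rintro t ⟨b, rfl⟩
    exact ⟨b, by rw [hNe, hXe]; rfl⟩)
  have h3 := Imp.comp (E := fun _ => True) (D := IsEnc β) Imp.snd h2 (fun _ _ => trivial)
  refine ⟨_, h3, fun b => ?_⟩
  simp only [Tr.fst_cons, Tr.snd_cons, hNe, hXe, enc_len]
  have h4 := hstep b (x b) (n b).length
  simp only [enc_pair] at h4
  rw [h4]
  rfl

theorem stepFold_iter {f : β × (σ × γ) → σ} (b : β) (l : List γ) (x : σ) (k : ℕ) :
    (fun a : σ × List γ => match a.2 with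
      | [] => a
      | c :: t => (f (b, (a.1, c)), t))^[k] (x, l) =
    ((l.take k).foldl (fun s c => f (b, s, c)) x, l.drop k) := by
  induction k generalizing l x with
  | zero => simp
  | succ k ih =>
    rw [Function.iterate_succ_apply]
    cases l with
    | nil => simp only []; rw [ih]; simp
    | cons c l => simp only []; rw [ih]; simp

/-- Folds with a context. -/
theorem foldl {f : β × (σ × γ) → σ} (hf : PT f) {l : β → List γ} {x : β → σ} (hl : PT l)
    (hx : PT x) (s : Polynomial ℕ) (hs : ∀ b, ∀ k ≤ (l b).length,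
      sz (((l b).take k).foldl (fun s c => f (b, s, c)) (x b)) ≤ s.eval (sz b)) :
    PT (fun b => (l b).foldl (fun s c => f (b, s, c)) (x b)) := by
  have hstep : PT (fun y : β × (σ × List γ) => match y.2.2 with
      | [] => y.2
      | c :: t => (f (y.1, (y.2.1, c)), t)) := by
    refine listCase (α := β × (σ × List γ)) (l := fun y => y.2.2) (f := fun y => y.2)
      (g := fun z => (f (z.1.1, (z.1.2.1, z.2.1)), z.2.2)) ?_ ?_ ?_
    · exact (PT.id.snd).snd
    · exact PT.id.snd
    · exact (hf.comp (PT.id.fst.fst.pair (PT.id.fst.snd.fst.pair PT.id.snd.fst))).pair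
        PT.id.snd.snd
  obtain ⟨S, hS⟩ := hl.bound
  have h := iter (β := β) (α := σ × List γ) (γ := γ) hstep (n := l) (x := fun b => (x b, l b)) hl
    (hx.pair hl) (s + S + 1) (by
      intro b k hk
      have h1 := stepFold_iter (f := f) b (l b) (x b) k
      change sz ((fun a : σ × List γ => match a.2 with
        | [] => a
        | c :: t => (f (b, (a.1, c)), t))^[k] (x b, l b)) ≤ _
      rw [h1, sz_pair]
      have h2 := hs b k hk
      have h3 := hS b
      have h4 := sz_drop (l b) k
      simp only [Polynomial.eval_add, Polynomial.eval_one]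
      omega)
  refine (h.fst).congr fun b => ?_
  have h1 := stepFold_iter (f := f) b (l b) (x b) (l b).length
  change ((fun a : σ × List γ => match a.2 with
        | [] => a
        | c :: t => (f (b, (a.1, c)), t))^[(l b).length] (x b, l b)).1 = _
  rw [h1, List.take_length]

/-- Folds in which every step increases the size by a bounded amount. -/
theorem foldl_add {f : β × (σ × γ) → σ} (hf : PT f) {l : β → List γ} {x : β → σ} (hl : PT l)
    (hx : PT x) (q : Polynomial ℕ) (hq : ∀ b s c, c ∈ l b → sz (f (b, s, c)) ≤ sz s + q.eval (sz b)) :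
    PT (fun b => (l b).foldl (fun s c => f (b, s, c)) (x b)) := by
  obtain ⟨S, hS⟩ := hx.bound
  obtain ⟨L, hL⟩ := hl.bound
  refine foldl hf hl hx (S + L * q) ?_
  intro b k hk
  have h1 : ∀ (m : List γ), (∀ c ∈ m, c ∈ l b) → ∀ s,
      sz (m.foldl (fun s c => f (b, s, c)) s) ≤ sz s + m.length * q.eval (sz b) := by
    intro m
    induction m with
    | nil => intro _ s; simp
    | cons c m ih =>
      intro hm s
      rw [List.foldl_cons]
      have h2 := ih (fun c hc => hm c (List.mem_cons_of_mem _ hc)) (f (b, s, c))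
      have h3 := hq b s c (hm c List.mem_cons_self)
      rw [List.length_cons]
      have h4 : (m.length + 1) * q.eval (sz b) = m.length * q.eval (sz b) + q.eval (sz b) := by
        ring
      omega
  have h2 := h1 ((l b).take k) (fun c hc => List.mem_of_mem_take hc) (x b)
  refine h2.trans ?_
  simp only [Polynomial.eval_add, Polynomial.eval_mul]
  have h3 := hS b
  have h4 : ((l b).take k).length ≤ L.eval (sz b) := by
    rw [List.length_take]
    have := length_le_sz (l b)
    have := hL b
    omega
  have h5 := Nat.mul_le_mul_right (q.eval (sz b)) h4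
  omega

theorem reverse {l : α → List β} (hl : PT l) : PT (fun a => (l a).reverse) := by
  have h : PT (fun l : List β => l.reverse) := by
    have h1 : PT (fun y : List β × (List β × β) => y.2.2 :: y.2.1) :=
      lcons PT.id.snd.snd PT.id.snd.fst
    have h2 := foldl_add (β := List β) (σ := List β) (γ := β) h1 (l := fun l => l)
      (x := fun _ => []) PT.id (const []) (Polynomial.X + 1) (by
        intro b s c hc
        rw [sz_cons]
        have := sz_mem hc
        simp only [Polynomial.eval_add, Polynomial.eval_X, Polynomial.eval_one]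
        omega)
    refine h2.congr fun l => ?_
    simp
  exact h.comp hl

theorem append {l m : α → List β} (hl : PT l) (hm : PT m) : PT (fun a => l a ++ m a) := by
  have h1 : PT (fun y : α × (List β × β) => y.2.2 :: y.2.1) :=
    lcons PT.id.snd.snd PT.id.snd.fst
  obtain ⟨L, hL⟩ := hl.reverse.bound
  have h2 := foldl_add (β := α) (σ := List β) (γ := β) h1 (l := fun a => (l a).reverse)
    (x := m) hl.reverse hm (L + 1) (by
      intro b s c hc
      rw [sz_cons]
      have := sz_mem hc
      have := hL b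
      simp only [Polynomial.eval_add, Polynomial.eval_one]
      omega)
  refine h2.congr fun a => ?_
  rw [List.foldl_reverse]
  simp

/-- map with a context -/
theorem map {f : α × β → γ} (hf : PT f) {l : α → List β} (hl : PT l) :
    PT (fun a => (l a).map fun b => f (a, b)) := by
  have h1 : PT (fun y : α × (List γ × β) => f (y.1, y.2.2) :: y.2.1) :=
    lcons (hf.comp (PT.id.fst.pair PT.id.snd.snd)) PT.id.snd.fst
  obtain ⟨L, hL⟩ := hl.bound
  obtain ⟨S, hS⟩ := hf.bound
  have h2 := foldl_add (β := α) (σ := List γ) (γ := β) h1 (l := l)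
    (x := fun _ => []) hl (const []) (S.comp (Polynomial.X + L + 1) + 1) (by
      intro b s c hc
      rw [sz_cons]
      have h3 := sz_mem hc
      have h4 := hL b
      have h5 := hS (b, c)
      rw [sz_pair] at h5
      have h6 := poly_mono S (show sz b + sz c + 1 ≤ sz b + L.eval (sz b) + 1 by omega)
      simp only [Polynomial.eval_add, Polynomial.eval_one, Polynomial.eval_comp,
        Polynomial.eval_X]
      omega)
  refine (h2.reverse).congr fun a => ?_
  have h3 : ∀ (l : List β) (acc : List γ),
      l.foldl (fun s c => f (a, c) :: s) acc = (l.map fun b => f (a, b)).reverse ++ acc := by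
    intro l
    induction l with
    | nil => intro acc; simp
    | cons b l ih => intro acc; rw [List.foldl_cons, ih]; simp
  change ((l a).foldl (fun s c => f (a, c) :: s) []).reverse = _
  rw [h3]; simp

theorem tail {l : α → List β} (hl : PT l) : PT (fun a => (l a).tail) := by
  refine (listCase hl (const []) (g := fun z => z.2.2) PT.id.snd.snd).congr fun a => ?_
  rcases l a with _ | ⟨b, t⟩ <;> rfl

theorem head? {l : α → List β} (hl : PT l) : PT (fun a => (l a).head?) := by
  refine (listCase hl (const none) (g := fun z => some z.2.1)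
    (osome PT.id.snd.fst)).congr fun a => ?_
  rcases l a with _ | ⟨b, t⟩ <;> rfl

theorem isEmpty {l : α → List β} (hl : PT l) : PT (fun a => (l a).isEmpty) := by
  refine (listCase hl (const true) (g := fun z => false) (const false)).congr fun a => ?_
  rcases l a with _ | ⟨b, t⟩ <;> rfl

theorem isSome {l : α → Option β} (hl : PT l) : PT (fun a => (l a).isSome) := by
  refine (optCase hl (const false) (g := fun z => true) (const true)).congr fun a => ?_
  rcases l a with _ | b <;> rfl

theorem not {f : α → Bool} (hf : PT f) : PT (fun a => !f a) :=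
  (ite hf (const false) (const true)).congr fun a => by cases f a <;> rfl

theorem and {f g : α → Bool} (hf : PT f) (hg : PT g) : PT (fun a => f a && g a) :=
  (ite hf hg (const false)).congr fun a => by cases f a <;> rfl

theorem or {f g : α → Bool} (hf : PT f) (hg : PT g) : PT (fun a => f a || g a) :=
  (ite hf (const true) hg).congr fun a => by cases f a <;> rfl

theorem beq {f g : α → Bool} (hf : PT f) (hg : PT g) : PT (fun a => f a == g a) :=
  (ite hf hg hg.not).congr fun a => by cases f a <;> cases g a <;> rfl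

/-- all with a context -/
theorem all {f : α × β → Bool} (hf : PT f) {l : α → List β} (hl : PT l) :
    PT (fun a => (l a).all fun b => f (a, b)) := by
  have h1 : PT (fun y : α × (Bool × β) => y.2.1 && f (y.1, y.2.2)) :=
    and PT.id.snd.fst (hf.comp (PT.id.fst.pair PT.id.snd.snd))
  have h2 := foldl_add (β := α) (σ := Bool) (γ := β) h1 (l := l)
    (x := fun _ => true) hl (const true) 3 (by
      intro b s c hc
      have := sz_bool (s && f (b, c))
      simp only [Polynomial.eval_ofNat]
      omega)
  refine h2.congr fun a => ?_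
  have h3 : ∀ (l : List β) (acc : Bool),
      l.foldl (fun s c => s && f (a, c)) acc = (acc && l.all fun b => f (a, b)) := by
    intro l
    induction l with
    | nil => intro acc; simp
    | cons b l ih => intro acc; rw [List.foldl_cons, ih]; simp [Bool.and_assoc]
  change ((l a).foldl (fun s c => s && f (a, c)) true) = _
  rw [h3]; simp

end PT

/-! ### equality with a constant and finite types -/

/-- decidable equality with a constant tree, as a tree -/
def eqC : Tr → Tr → Tr
  | Tr.nil, x => if x.isC then Tr.nil else Tr.cons Tr.nil Tr.nil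
  | Tr.cons a b, x => if x.isC then (if (eqC a x.fst).isC then eqC b x.snd else Tr.nil)
      else Tr.nil

theorem isC_nil : Tr.nil.isC = false := rfl
theorem isC_cons (a b : Tr) : (Tr.cons a b).isC = true := rfl

theorem eqC_isC (t x : Tr) : (eqC t x).isC = decide (x = t) := by
  induction t generalizing x with
  | nil => cases x <;> simp [eqC, Tr.isC]
  | cons a b iha ihb =>
    cases x with
    | nil => simp [eqC, Tr.isC]
    | cons c d =>
      have h1 : eqC (Tr.cons a b) (Tr.cons c d) =
        if (Tr.cons c d).isC then (if (eqC a c).isC then eqC b d else Tr.nil) else Tr.nil := rfl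
      rw [h1, isC_cons, if_pos rfl, iha]
      by_cases h : c = a
      · rw [if_pos (by simpa using h), ihb]; simp [h]
      · rw [if_neg (by simpa using h), isC_nil]; simp [h]

theorem Imp.eqC {D : Tr → Prop} (t : Tr) : Imp D (eqC t) := by
  induction t generalizing D with
  | nil => exact Imp.ite Imp.id Imp.nil (Imp.const _)
  | cons a b iha ihb =>
    refine Imp.ite Imp.id (Imp.ite (C := fun x => Poly.eqC a x.fst) ?_ ?_ Imp.nil) Imp.nil
    · exact Imp.comp (E := fun _ => True) iha Imp.fst fun _ _ => trivial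
    · exact Imp.comp (E := fun _ => True) ihb Imp.snd fun _ _ => trivial

/-- every function on a finite type with injective encoding is polynomial-time -/
theorem PT.finite {α β : Type} [TEnc α] [TEnc β] [Fintype α] (hinj : Function.Injective
    (enc : α → Tr)) (f : α → β) : PT f := by
  classical
  have key : ∀ l : List α, ∃ F : Tr → Tr, Imp (fun _ => True) F ∧
      ∀ a ∈ l, F (enc a) = enc (f a) := by
    intro l
    induction l with
    | nil => exact ⟨_, Imp.nil, by simp⟩
    | cons a l ih =>
      obtain ⟨F, hF, hFe⟩ := ih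
      refine ⟨_, Imp.ite (C := eqC (enc a)) (F := fun _ => enc (f a)) (G := F) (Imp.eqC _)
        (Imp.const _) (PT.imp_mono hF fun _ _ => trivial), ?_⟩
      intro b hb
      simp only [eqC_isC]
      by_cases hab : b = a
      · subst hab; simp
      · have h1 : enc b ≠ enc a := fun h => hab (hinj h)
        simp only [h1, decide_false, Bool.false_eq_true, if_false]
        exact hFe b (by simpa [hab] using hb)
  obtain ⟨F, hF, hFe⟩ := key (Finset.univ : Finset α).toList
  exact ⟨F, PT.imp_mono hF fun _ _ => trivial, fun a => hFe a (by simp)⟩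

end Pool.Agent.Helper54.Poly
end

section
namespace Pool.Agent.Helper54.Poly

open TEnc

variable {α β γ δ σ : Type} [TEnc α] [TEnc β] [TEnc γ] [TEnc δ] [TEnc σ]

/-! ### unary numbers -/

instance : TEnc ℕ := ⟨fun n => enc (List.replicate n ())⟩

theorem enc_nat (n : ℕ) : enc n = enc (List.replicate n ()) := rfl

theorem sz_nat (n : ℕ) : sz n = 2 * n + 1 := by
  change (enc (List.replicate n ())).size = _
  induction n with
  | zero => simp
  | succ n ih => rw [List.replicate_succ, enc_lcons, Tr.size_cons, ih]; simp; ring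

namespace PT

theorem ofRep {f : α → ℕ} (h : PT (fun a => List.replicate (f a) ())) : PT f := h

theorem toRep {f : α → ℕ} (h : PT f) : PT (fun a => List.replicate (f a) ()) := h

theorem length {l : α → List β} (hl : PT l) : PT (fun a => (l a).length) := by
  apply ofRep
  have h := map (f := fun _ : α × β => ()) (const ()) hl
  refine h.congr fun a => ?_
  simp

theorem succ {f : α → ℕ} (hf : PT f) : PT (fun a => f a + 1) := by
  apply ofRep
  refine (lcons (const ()) hf.toRep).congr fun a => ?_
  rw [List.replicate_succ]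

theorem add {f g : α → ℕ} (hf : PT f) (hg : PT g) : PT (fun a => f a + g a) := by
  apply ofRep
  refine (append hf.toRep hg.toRep).congr fun a => ?_
  rw [← List.replicate_add]

/-- iterate `f a` times -/
theorem iterN {f : β × α → α} (hf : PT f) {n : β → ℕ} {x : β → α} (hn : PT n) (hx : PT x)
    (s : Polynomial ℕ) (hs : ∀ b, ∀ k ≤ n b,
      sz ((fun a => f (b, a))^[k] (x b)) ≤ s.eval (sz b)) :
    PT (fun b => (fun a => f (b, a))^[n b] (x b)) := by
  have h := iter hf (n := fun b => List.replicate (n b) ()) hn.toRep hx s (by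
    intro b k hk
    rw [List.length_replicate] at hk
    exact hs b k hk)
  refine h.congr fun a => ?_
  rw [List.length_replicate]

theorem nbound {f : α → ℕ} (hf : PT f) : ∃ S : Polynomial ℕ, ∀ a, f a ≤ S.eval (sz a) := by
  obtain ⟨S, hS⟩ := hf.bound
  refine ⟨S, fun a => ?_⟩
  have := hS a
  rw [sz_nat] at this
  omega

theorem mul {f g : α → ℕ} (hf : PT f) (hg : PT g) : PT (fun a => f a * g a) := by
  obtain ⟨S, hS⟩ := hf.nbound
  obtain ⟨T, hT⟩ := hg.nbound
  have key : ∀ a k, (fun s => s + g a)^[k] 0 = k * g a := by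
    intro a k
    induction k with
    | zero => simp
    | succ k ih => rw [Function.iterate_succ_apply', ih]; ring
  have h := iterN (β := α) (α := ℕ) (f := fun y => y.2 + g y.1)
    (add PT.id.snd (hg.comp PT.id.fst)) hf (const 0) (2 * (S * T) + 1) (by
      intro a k hk
      change sz ((fun s => s + g a)^[k] 0) ≤ _
      rw [key, sz_nat]
      simp only [Polynomial.eval_add, Polynomial.eval_mul, Polynomial.eval_ofNat,
        Polynomial.eval_one]
      have := Nat.mul_le_mul (hk.trans (hS a)) (hT a)
      omega)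
  refine h.congr fun a => ?_
  exact key a (f a)

theorem pow {f : α → ℕ} (hf : PT f) (c : ℕ) : PT (fun a => f a ^ c) := by
  induction c with
  | zero => exact (const 1).congr fun a => (pow_zero _).symm
  | succ c ih => exact (mul ih hf).congr fun a => (pow_succ _ _).symm

theorem drop {n : α → ℕ} {l : α → List β} (hn : PT n) (hl : PT l) :
    PT (fun a => (l a).drop (n a)) := by
  obtain ⟨S, hS⟩ := hl.bound
  have key : ∀ (m : List β) k, (fun s : List β => s.tail)^[k] m = m.drop k := by
    intro m k
    induction k generalizing m with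
    | zero => simp
    | succ k ih => rw [Function.iterate_succ_apply, ih]; cases m <;> simp
  have h := iterN (β := α) (α := List β) (f := fun y => y.2.tail) (tail PT.id.snd) hn hl S (by
      intro a k hk
      change sz ((fun s : List β => s.tail)^[k] (l a)) ≤ _
      rw [key]
      exact (sz_drop _ _).trans (hS a))
  exact h.congr fun a => key _ _

theorem take {n : α → ℕ} {l : α → List β} (hn : PT n) (hl : PT l) :
    PT (fun a => (l a).take (n a)) := by
  have h := (drop (add (length hl) (const 0)) (hl.append hl)).reverse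
  have h2 : PT (fun a => ((l a).reverse.drop ((l a).length - (n a))).reverse) := by
    -- `length - n` as the length of the dropped list
    have h3 : PT (fun a => ((l a).drop (n a)).length) := length (drop hn hl)
    refine (drop h3 hl.reverse).reverse.congr fun a => ?_
    rw [List.length_drop]
  refine h2.congr fun a => ?_
  rw [List.drop_reverse, List.reverse_reverse]
  have : (l a).length - ((l a).length - n a) = min (n a) (l a).length := by omega
  rw [this]
  rcases Nat.le_total (n a) (l a).length with h4 | h4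
  · rw [min_eq_left h4]
  · rw [min_eq_right h4, List.take_of_length_le h4, List.take_length]

theorem getD {n : α → ℕ} {l : α → List β} {d : α → β} (hn : PT n) (hl : PT l) (hd : PT d) :
    PT (fun a => (l a).getD (n a) (d a)) := by
  have h := optCase (head? (drop hn hl)) hd (g := fun z => z.2) PT.id.snd
  refine h.congr fun a => ?_
  rw [List.head?_drop, List.getD_eq_getElem?_getD]
  cases (l a)[n a]? <;> rfl

theorem leN {f g : α → ℕ} (hf : PT f) (hg : PT g) : PT (fun a => decide (f a ≤ g a)) := by
  have h := isEmpty (drop hg hf.toRep)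
  refine h.congr fun a => ?_
  rw [List.drop_replicate]
  by_cases h : f a ≤ g a
  · have : f a - g a = 0 := by omega
    simp [this, h]
  · have : f a - g a ≠ 0 := by omega
    cases hk : f a - g a with
    | zero => exact absurd hk this
    | succ k => simp [List.replicate_succ, h]

end PT

/-! ### binary numbers -/

/-- natural numbers encoded in binary -/
structure BN where
  n : ℕ

instance : TEnc BN := ⟨fun x => enc (Nat.bits x.n)⟩

theorem sz_bn_le (n k : ℕ) (h : n < 2 ^ k) : sz (⟨n⟩ : BN) ≤ 4 * k + 1 := by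
  have h1 : ∀ l : List Bool, (enc l).size ≤ 4 * l.length + 1 := by
    intro l
    induction l with
    | nil => simp
    | cons b l ih =>
      rw [enc_lcons, Tr.size_cons, List.length_cons]
      have : (enc b).size ≤ 3 := by cases b <;> simp
      omega
  refine (h1 (Nat.bits n)).trans ?_
  rw [Nat.size_eq_bits_len]
  have := Nat.size_le.2 h
  omega

theorem lt_of_sz (x : BN) : x.n < 2 ^ sz x := by
  have h2 : (Nat.bits x.n).length ≤ sz x := length_le_sz (Nat.bits x.n)
  rw [Nat.size_eq_bits_len] at h2
  exact Nat.size_le.1 h2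

/-- value of a list of bits -/
def bval : List Bool → ℕ
  | [] => 0
  | b :: l => b.toNat + 2 * bval l

theorem bval_bits (n : ℕ) : bval (Nat.bits n) = n := by
  induction n using Nat.binaryRec' with
  | zero => simp [bval]
  | bit b n h ih =>
    rw [Nat.bits_append_bit n b h, bval, ih]
    cases b <;> simp [Nat.bit]; omega

/-- canonical form of a list of bits -/
def bnorm (l : List Bool) : List Bool :=
  l.foldr (fun b acc => if acc.isEmpty && !b then [] else b :: acc) []

theorem bnorm_eq (l : List Bool) : bnorm l = Nat.bits (bval l) := by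
  induction l with
  | nil => simp [bnorm, bval]
  | cons b l ih =>
    have h1 : bnorm (b :: l) = if (bnorm l).isEmpty && !b then [] else b :: bnorm l := rfl
    rw [h1, ih, bval]
    have h2 : b.toNat + 2 * bval l = Nat.bit b (bval l) := by
      cases b <;> simp [Nat.bit]; omega
    rw [h2]
    by_cases h3 : bval l = 0 ∧ b = false
    · obtain ⟨h4, rfl⟩ := h3
      simp [h4]
    · rw [Nat.bits_append_bit _ _ (fun h0 => by
        cases b
        · exact absurd ⟨h0, rfl⟩ h3
        · rfl)]
      rw [if_neg]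
      intro h5
      simp only [Bool.and_eq_true, List.isEmpty_iff, Bool.not_eq_true'] at h5
      apply h3
      refine ⟨?_, h5.2⟩
      have := bval_bits (bval l)
      rw [h5.1] at this
      exact this.symm

namespace PT

theorem ofBits {f : α → ℕ} (h : PT (fun a => Nat.bits (f a))) : PT (fun a => (⟨f a⟩ : BN)) := h
theorem toBits {f : α → BN} (h : PT f) : PT (fun a => Nat.bits (f a).n) := h

theorem bnorm {l : α → List Bool} (hl : PT l) : PT (fun a => Poly.bnorm (l a)) := by
  have h1 : PT (fun y : α × (List Bool × Bool) =>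
      if y.2.1.isEmpty && !y.2.2 then [] else y.2.2 :: y.2.1) :=
    ite (and (isEmpty PT.id.snd.fst) (PT.id.snd.snd).not) (const [])
      (lcons PT.id.snd.snd PT.id.snd.fst)
  have h2 := foldl_add h1 (l := fun a => (l a).reverse) (x := fun _ => []) hl.reverse (const [])
    4 (by
      intro b s c _
      have := sz_bool c
      simp only [Polynomial.eval_ofNat]
      split_ifs
      · rw [sz_nil]; omega
      · rw [sz_cons]; omega)
  refine h2.congr fun a => ?_
  rw [List.foldl_reverse]
  rfl

theorem ofVal {l : α → List Bool} {f : α → ℕ} (hl : PT l) (h : ∀ a, bval (l a) = f a) :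
    PT (fun a => (⟨f a⟩ : BN)) := by
  apply ofBits
  refine (bnorm hl).congr fun a => ?_
  rw [bnorm_eq, h]

end PT

/-! addition -/

def hd (l : List Bool) : Bool := l.head?.getD false

theorem bval_split (l : List Bool) : bval l = (hd l).toNat + 2 * bval l.tail := by
  cases l with
  | nil => simp [bval, hd]
  | cons b l => simp [bval, hd]

def maj (a b c : Bool) : Bool := if a then b || c else b && c
def par (a b c : Bool) : Bool := if a then b == c else !(b == c)

def addR : List Bool → List Bool → Bool → ℕ → List Bool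
  | _, _, _, 0 => []
  | x, y, c, n + 1 => par (hd x) (hd y) c :: addR x.tail y.tail (maj (hd x) (hd y) c) n

theorem mod_step (a m n : ℕ) (ha : a < 2) : (a + 2 * m) % 2 ^ (n + 1) = a + 2 * (m % 2 ^ n) := by
  rw [pow_succ']
  have h1 : m = m % 2 ^ n + 2 ^ n * (m / 2 ^ n) := (Nat.mod_add_div m (2 ^ n)).symm
  have h2 : m % 2 ^ n < 2 ^ n := Nat.mod_lt _ (by positivity)
  have h3 : a + 2 * m = (a + 2 * (m % 2 ^ n)) + (2 * 2 ^ n) * (m / 2 ^ n) := by
    conv_lhs => rw [h1]
    ring
  rw [h3, Nat.add_mul_mod_self_left, Nat.mod_eq_of_lt (by omega)]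

theorem toNat_lt (b : Bool) : b.toNat < 2 := by cases b <;> simp

theorem bval_addR (n : ℕ) : ∀ x y c, bval (addR x y c n) = (c.toNat + bval x + bval y) % 2 ^ n := by
  induction n with
  | zero => intro x y c; simp [addR, bval, Nat.mod_one]
  | succ n ih =>
    intro x y c
    rw [addR, bval, ih, bval_split x, bval_split y]
    have h1 : c.toNat + ((hd x).toNat + 2 * bval x.tail) + ((hd y).toNat + 2 * bval y.tail) =
        (par (hd x) (hd y) c).toNat + 2 * ((maj (hd x) (hd y) c).toNat + bval x.tail +
          bval y.tail) := by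
      cases hd x <;> cases hd y <;> cases c <;> simp [par, maj] <;> omega
    rw [h1, mod_step _ _ _ (toNat_lt _)]

theorem bval_lt (l : List Bool) : bval l < 2 ^ l.length := by
  induction l with
  | nil => simp [bval]
  | cons b l ih =>
    rw [bval, List.length_cons, pow_succ]
    have := toNat_lt b
    omega

theorem addR_length (n : ℕ) : ∀ x y c, (addR x y c n).length = n := by
  induction n with
  | zero => intro x y c; rfl
  | succ n ih => intro x y c; simp [addR, ih]

abbrev AddSt := List Bool × (List Bool × (Bool × List Bool))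

def addStep (s : AddSt) : AddSt :=
  (s.1.tail, (s.2.1.tail, (maj (hd s.1) (hd s.2.1) s.2.2.1,
    par (hd s.1) (hd s.2.1) s.2.2.1 :: s.2.2.2)))

theorem addStep_iter (n : ℕ) : ∀ x y c acc, ∃ c', addStep^[n] (x, (y, (c, acc))) =
    (x.drop n, (y.drop n, (c', (addR x y c n).reverse ++ acc))) := by
  induction n with
  | zero => intro x y c acc; exact ⟨c, by simp [addR]⟩
  | succ n ih =>
    intro x y c acc
    rw [Function.iterate_succ_apply]
    obtain ⟨c', h⟩ := ih x.tail y.tail (maj (hd x) (hd y) c) (par (hd x) (hd y) c :: acc)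
    refine ⟨c', ?_⟩
    have h1 : addStep (x, (y, (c, acc))) = (x.tail, (y.tail, (maj (hd x) (hd y) c,
      par (hd x) (hd y) c :: acc))) := rfl
    rw [h1, h]
    simp [addR]

namespace PT

theorem hd {l : α → List Bool} (hl : PT l) : PT (fun a => Poly.hd (l a)) := by
  have h := optCase (head? hl) (const false) (g := fun z => z.2) PT.id.snd
  refine h.congr fun a => ?_
  unfold Poly.hd
  cases (l a).head? <;> rfl

theorem maj {f g h : α → Bool} (hf : PT f) (hg : PT g) (hh : PT h) :
    PT (fun a => Poly.maj (f a) (g a) (h a)) := ite hf (or hg hh) (and hg hh)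

theorem par {f g h : α → Bool} (hf : PT f) (hg : PT g) (hh : PT h) :
    PT (fun a => Poly.par (f a) (g a) (h a)) := ite hf (beq hg hh) (beq hg hh).not

theorem addStep' : PT Poly.addStep := by
  have hx : PT (fun s : AddSt => s.1) := PT.id.fst
  have hy : PT (fun s : AddSt => s.2.1) := PT.id.snd.fst
  have hc : PT (fun s : AddSt => s.2.2.1) := PT.id.snd.snd.fst
  have ha : PT (fun s : AddSt => s.2.2.2) := PT.id.snd.snd.snd
  exact (tail hx).pair ((tail hy).pair ((maj (hd hx) (hd hy) hc).pair
    (lcons (par (hd hx) (hd hy) hc) ha)))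

theorem sz_boolList (l : List Bool) : sz l ≤ 4 * l.length + 1 := by
  induction l with
  | nil => simp [sz_nil]
  | cons b l ih =>
    rw [sz_cons, List.length_cons]
    have := sz_bool b
    omega

theorem badd {f g : α → BN} (hf : PT f) (hg : PT g) : PT (fun a => (⟨(f a).n + (g a).n⟩ : BN)) := by
  set N : α → List Bool := fun a => true :: (Nat.bits (f a).n ++ Nat.bits (g a).n) with hN
  have hNp : PT N := lcons (const true) (append hf.toBits hg.toBits)
  obtain ⟨S, hS⟩ := hNp.bound
  obtain ⟨Sf, hSf⟩ := hf.toBits.bound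
  obtain ⟨Sg, hSg⟩ := hg.toBits.bound
  have h := iter (β := α) (α := AddSt) (f := fun y => Poly.addStep y.2)
    (addStep'.comp PT.id.snd) (n := N)
    (x := fun a => (Nat.bits (f a).n, (Nat.bits (g a).n, (false, [])))) hNp
    (hf.toBits.pair (hg.toBits.pair ((const false).pair (const [])))) (Sf + Sg + 4 * S + 7) (by
      intro a k hk
      change sz (Poly.addStep^[k] (Nat.bits (f a).n, (Nat.bits (g a).n, (false, [])))) ≤ _
      obtain ⟨c', hc'⟩ := addStep_iter k (Nat.bits (f a).n) (Nat.bits (g a).n) false []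
      rw [hc', sz_pair, sz_pair, sz_pair, List.append_nil]
      have h1 := sz_drop (Nat.bits (f a).n) k
      have h2 := sz_drop (Nat.bits (g a).n) k
      have h3 := hSf a
      have h4 := hSg a
      have h5 := sz_boolList (addR (Nat.bits (f a).n) (Nat.bits (g a).n) false k).reverse
      rw [List.length_reverse, addR_length] at h5
      have h6 := sz_bool c'
      have h7 : k ≤ S.eval (sz a) := hk.trans ((length_le_sz _).trans (hS a))
      simp only [Polynomial.eval_add, Polynomial.eval_mul, Polynomial.eval_ofNat]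
      omega)
  refine ofVal (reverse h.snd.snd.snd) fun a => ?_
  change bval (Poly.addStep^[(N a).length] (Nat.bits (f a).n, (Nat.bits (g a).n,
    (false, [])))).2.2.2.reverse = _
  obtain ⟨c', hc'⟩ := addStep_iter (N a).length (Nat.bits (f a).n) (Nat.bits (g a).n) false []
  rw [hc']
  simp only [List.append_nil, List.reverse_reverse]
  rw [bval_addR, bval_bits, bval_bits]
  simp only [Bool.toNat_false, Nat.zero_add]
  apply Nat.mod_eq_of_lt
  have h1 := bval_lt (Nat.bits (f a).n)
  have h2 := bval_lt (Nat.bits (g a).n)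
  rw [bval_bits] at h1 h2
  have h3 : (N a).length = (Nat.bits (f a).n).length + (Nat.bits (g a).n).length + 1 := by
    simp [hN]
  rw [h3, pow_succ, pow_add]
  have h4 : 2 ^ (Nat.bits (f a).n).length ≤ 2 ^ (Nat.bits (f a).n).length *
      2 ^ (Nat.bits (g a).n).length := Nat.le_mul_of_pos_right _ (by positivity)
  have h5 : 2 ^ (Nat.bits (g a).n).length ≤ 2 ^ (Nat.bits (f a).n).length *
      2 ^ (Nat.bits (g a).n).length := Nat.le_mul_of_pos_left _ (by positivity)
  omega

theorem bdouble {f : α → BN} (hf : PT f) : PT (fun a => (⟨2 * (f a).n⟩ : BN)) := by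
  refine ofVal (lcons (const false) hf.toBits) fun a => ?_
  rw [bval, bval_bits]; simp

theorem bbit {b : α → Bool} {f : α → BN} (hb : PT b) (hf : PT f) :
    PT (fun a => (⟨(b a).toNat + 2 * (f a).n⟩ : BN)) := by
  refine ofVal (lcons hb hf.toBits) fun a => ?_
  rw [bval, bval_bits]

theorem foldl_mul (x : ℕ) (l : List Bool) (acc : ℕ) :
    l.foldl (fun s b => 2 * s + (if b then x else 0)) acc = acc * 2 ^ l.length + x * bval l.reverse := by
  induction l generalizing acc with
  | nil => simp [bval]
  | cons b l ih =>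
    rw [List.foldl_cons, ih, List.length_cons, List.reverse_cons]
    have h1 : ∀ (m : List Bool) b, bval (m ++ [b]) = bval m + 2 ^ m.length * b.toNat := by
      intro m b
      induction m with
      | nil => simp [bval]
      | cons c m ih => rw [List.cons_append, bval, ih, bval, List.length_cons, pow_succ]; ring
    rw [h1, List.length_reverse, pow_succ]
    cases b <;> simp <;> ring

theorem bmul {f g : α → BN} (hf : PT f) (hg : PT g) : PT (fun a => (⟨(f a).n * (g a).n⟩ : BN)) := by
  have hstep : PT (fun y : α × (BN × Bool) =>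
      (⟨2 * y.2.1.n + (if y.2.2 then f y.1 else ⟨0⟩ : BN).n⟩ : BN)) := by
    have h1 : PT (fun y : α × (BN × Bool) => (if y.2.2 then f y.1 else ⟨0⟩ : BN)) :=
      ite PT.id.snd.snd (hf.comp PT.id.fst) (const _)
    exact badd (bdouble PT.id.snd.fst) h1
  have hfold : ∀ a (l : List Bool) (acc : BN), (l.foldl (fun (s : BN) c =>
      (⟨2 * s.n + (if c then f a else ⟨0⟩ : BN).n⟩ : BN)) acc).n =
      acc.n * 2 ^ l.length + (f a).n * bval l.reverse := by
    intro a l
    have h2 : ∀ (l : List Bool) (acc : BN), (l.foldl (fun (s : BN) c =>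
      (⟨2 * s.n + (if c then f a else ⟨0⟩ : BN).n⟩ : BN)) acc).n =
        l.foldl (fun s b => 2 * s + (if b then (f a).n else 0)) acc.n := by
      intro l
      induction l with
      | nil => intro acc; rfl
      | cons b l ih =>
        intro acc
        rw [List.foldl_cons, List.foldl_cons, ih]
        cases b <;> simp
    intro acc
    rw [h2, foldl_mul]
  obtain ⟨Sf, hSf⟩ := hf.bound
  obtain ⟨Sg, hSg⟩ := hg.bound
  have h := foldl hstep (l := fun a => (Nat.bits (g a).n).reverse) (x := fun _ => (⟨0⟩ : BN))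
    hg.toBits.reverse (const _) (4 * (Sf + Sg) + 1) (by
      intro a k hk
      set l := (Nat.bits (g a).n).reverse.take k with hl
      have h3 := hfold a l ⟨0⟩
      rw [Nat.zero_mul, Nat.zero_add] at h3
      have h4 : ((l.foldl (fun (s : BN) c =>
        (⟨2 * s.n + (if c then f a else ⟨0⟩ : BN).n⟩ : BN)) ⟨0⟩)).n < 2 ^ (Sf + Sg).eval (sz a) := by
        rw [h3, Polynomial.eval_add, pow_add]
        apply Nat.mul_lt_mul''
        · exact (lt_of_sz (f a)).trans_le (Nat.pow_le_pow_right (by norm_num) (hSf a))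
        · refine (bval_lt _).trans_le (Nat.pow_le_pow_right (by norm_num) ?_)
          rw [List.length_reverse, hl, List.length_take, List.length_reverse]
          have h5 : (Nat.bits (g a).n).length ≤ sz (g a) := length_le_sz (Nat.bits (g a).n)
          have := hSg a
          omega
      have h6 := sz_bn_le _ _ h4
      simp only [Polynomial.eval_add, Polynomial.eval_mul, Polynomial.eval_ofNat,
        Polynomial.eval_one] at h6 ⊢
      exact h6)
  refine h.congr fun a => ?_
  have h3 := hfold a (Nat.bits (g a).n).reverse ⟨0⟩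
  rw [Nat.zero_mul, Nat.zero_add, List.reverse_reverse, bval_bits] at h3
  change ((Nat.bits (g a).n).reverse.foldl (fun (s : BN) c =>
    (⟨2 * s.n + (if c then f a else ⟨0⟩ : BN).n⟩ : BN)) ⟨0⟩) = _
  rw [← h3]

/-- multiplication by a power of two, exponent in unary -/
theorem bshift {f : α → BN} {k : α → ℕ} (hf : PT f) (hk : PT k) :
    PT (fun a => (⟨(f a).n * 2 ^ k a⟩ : BN)) := by
  have key : ∀ (j : ℕ) (x : BN), ((fun y : BN => (⟨2 * y.n⟩ : BN))^[j] x) = ⟨x.n * 2 ^ j⟩ := by
    intro j
    induction j with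
    | zero => intro x; simp
    | succ j ih => intro x; rw [Function.iterate_succ_apply, ih]; congr 1; rw [pow_succ]; ring
  obtain ⟨Sf, hSf⟩ := hf.bound
  obtain ⟨K, hK⟩ := hk.nbound
  have h := iterN (β := α) (α := BN) (f := fun y => (⟨2 * y.2.n⟩ : BN)) (bdouble PT.id.snd) hk hf
    (4 * (Sf + K) + 1) (by
      intro a j hj
      change sz ((fun y : BN => (⟨2 * y.n⟩ : BN))^[j] (f a)) ≤ _
      rw [key]
      have h1 : (f a).n * 2 ^ j < 2 ^ (Sf + K).eval (sz a) := by
        rw [Polynomial.eval_add, pow_add]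
        apply Nat.mul_lt_mul_of_lt_of_le
        · exact (lt_of_sz (f a)).trans_le (Nat.pow_le_pow_right (by norm_num) (hSf a))
        · exact Nat.pow_le_pow_right (by norm_num) (hj.trans (hK a))
        · positivity
      have h6 := sz_bn_le _ _ h1
      simp only [Polynomial.eval_add, Polynomial.eval_mul, Polynomial.eval_ofNat,
        Polynomial.eval_one] at h6 ⊢
      exact h6)
  refine h.congr fun a => ?_
  exact key _ _

end PT

/-! comparison -/

def leR : List Bool → List Bool → Bool → ℕ → Bool
  | _, _, r, 0 => r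
  | x, y, r, n + 1 => leR x.tail y.tail (if hd x == hd y then r else hd y) n

theorem leR_eq (n : ℕ) : ∀ x y r, leR x y r n =
    decide (bval x % 2 ^ n < bval y % 2 ^ n ∨ (bval x % 2 ^ n = bval y % 2 ^ n ∧ r = true)) := by
  induction n with
  | zero => intro x y r; simp [leR, Nat.mod_one]
  | succ n ih =>
    intro x y r
    rw [leR, ih, bval_split x, bval_split y, mod_step _ _ _ (toNat_lt _),
      mod_step _ _ _ (toNat_lt _)]
    congr 1
    apply propext
    generalize bval x.tail % 2 ^ n = X
    generalize bval y.tail % 2 ^ n = Y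
    cases hd x <;> cases hd y <;> cases r <;> simp <;> omega

abbrev LeSt := List Bool × (List Bool × Bool)

def leStep (s : LeSt) : LeSt :=
  (s.1.tail, (s.2.1.tail, if hd s.1 == hd s.2.1 then s.2.2 else hd s.2.1))

theorem leStep_iter (n : ℕ) : ∀ x y r, leStep^[n] (x, (y, r)) =
    (x.drop n, (y.drop n, leR x y r n)) := by
  induction n with
  | zero => intro x y r; simp [leR]
  | succ n ih =>
    intro x y r
    rw [Function.iterate_succ_apply]
    have h1 : leStep (x, (y, r)) = (x.tail, (y.tail, if hd x == hd y then r else hd y)) := rfl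
    rw [h1, ih]
    simp [leR]

namespace PT

theorem leStep' : PT Poly.leStep := by
  have hx : PT (fun s : LeSt => s.1) := PT.id.fst
  have hy : PT (fun s : LeSt => s.2.1) := PT.id.snd.fst
  have hr : PT (fun s : LeSt => s.2.2) := PT.id.snd.snd
  exact (tail hx).pair ((tail hy).pair (ite (beq (hd hx) (hd hy)) hr (hd hy)))

theorem ble {f g : α → BN} (hf : PT f) (hg : PT g) :
    PT (fun a => decide ((f a).n ≤ (g a).n)) := by
  set N : α → List Bool := fun a => Nat.bits (f a).n ++ Nat.bits (g a).n with hN
  have hNp : PT N := append hf.toBits hg.toBits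
  obtain ⟨Sf, hSf⟩ := hf.toBits.bound
  obtain ⟨Sg, hSg⟩ := hg.toBits.bound
  have h := iter (β := α) (α := LeSt) (f := fun y => Poly.leStep y.2)
    (leStep'.comp PT.id.snd) (n := N)
    (x := fun a => (Nat.bits (f a).n, (Nat.bits (g a).n, true))) hNp
    (hf.toBits.pair (hg.toBits.pair (const true))) (Sf + Sg + 5) (by
      intro a k hk
      change sz (Poly.leStep^[k] (Nat.bits (f a).n, (Nat.bits (g a).n, true))) ≤ _
      rw [leStep_iter, sz_pair, sz_pair]
      have h1 := sz_drop (Nat.bits (f a).n) k
      have h2 := sz_drop (Nat.bits (g a).n) k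
      have h3 := hSf a
      have h4 := hSg a
      have h6 := sz_bool (leR (Nat.bits (f a).n) (Nat.bits (g a).n) true k)
      simp only [Polynomial.eval_add, Polynomial.eval_ofNat]
      omega)
  refine h.snd.snd.congr fun a => ?_
  change (Poly.leStep^[(N a).length] (Nat.bits (f a).n, (Nat.bits (g a).n, true))).2.2 = _
  rw [leStep_iter, leR_eq]
  have h1 := bval_lt (Nat.bits (f a).n)
  have h2 := bval_lt (Nat.bits (g a).n)
  have h3 : (N a).length = (Nat.bits (f a).n).length + (Nat.bits (g a).n).length := by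
    simp [hN]
  have h4 : 2 ^ (Nat.bits (f a).n).length ≤ 2 ^ (N a).length :=
    Nat.pow_le_pow_right (by norm_num) (by omega)
  have h5 : 2 ^ (Nat.bits (g a).n).length ≤ 2 ^ (N a).length :=
    Nat.pow_le_pow_right (by norm_num) (by omega)
  rw [Nat.mod_eq_of_lt (by omega), Nat.mod_eq_of_lt (by omega), bval_bits, bval_bits]
  change decide _ = decide _
  rw [decide_eq_decide]
  simp only [and_true]
  omega

end PT

end Pool.Agent.Helper54.Poly
end
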